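import Mathlib
import Pool.Agent.U916.KF.Gen1

set_option autoImplicit false

namespace Pool.Agent.U916.KF

open Finset Filter Topology MeasureTheory

variable {f : ℕ → ℝ → ℝ} {κ : ℝ} {k : ℕ} {G : ℝ} (hf : GoodK f κ k G)
include hf

lemma integrableOn_abs_gg (p : ℕ) (a b : ℝ) : IntegrableOn (fun t => |gg f p t|) (Set.Ioc a b) :=
  (integrableOn_gg hf p a b).abs

lemma diag_inner (p : ℕ) (a b0 b1 : ℝ) (hb : b0 ≤ b1) :
    |∫ b in Set.Ico b0 b1, pk f p p a b| ≤ ∫ x in Set.Ioc (a * p + b0) (a * p + b1), |gg f p x| := by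
  have e1 : ∫ x in Set.Ioc (a * p + b0) (a * p + b1), |gg f p x| =
      ∫ b in Set.Ioc b0 b1, |gg f p (a * p + b)| := by
    rw [← intervalIntegral.integral_of_le (by linarith), ← intervalIntegral.integral_of_le hb]
    exact (intervalIntegral.integral_comp_add_left (fun x => |gg f p x|) (a * p)).symm
  rw [e1, ← setIntegral_congr_set (Ico_ae_eq_Ioc (μ := volume) (a := b0) (b := b1))]
  have hm : Measurable fun b => |gg f p (a * p + b)| :=
    ((measurable_gg hf p).comp (by fun_prop : Measurable fun b : ℝ => a * p + b)).abs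
  have : IsFiniteMeasure (volume.restrict (Set.Ico b0 b1)) := ⟨by simp⟩
  have hint : Integrable (fun b => |gg f p (a * p + b)|) (volume.restrict (Set.Ico b0 b1)) := by
    refine Integrable.of_bound hm.aestronglyMeasurable 1 (Eventually.of_forall fun b => ?_)
    rw [Real.norm_eq_abs, abs_abs]
    exact abs_gg_le_one hf _ _
  rw [← Real.norm_eq_abs]
  refine norm_integral_le_of_norm_le hint (Eventually.of_forall fun b => ?_)
  unfold pk
  rw [Real.norm_eq_abs, abs_mul]
  exact mul_le_of_le_one_left (abs_nonneg _) (abs_gg_le_one hf _ _)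

/-- the inner integral of the off-diagonal term -/
lemma off_inner {c C K : ℝ} (hK : 0 < K) (p q : ℕ) (hp : 0 < p) (hpq : p < q) (a0 a1 b0 b1 : ℝ)
    (hb : b0 ≤ b1) (hq3 : 3 ≤ q)
    (h3 : ∀ u v, c * q + 1 ≤ u → u ≤ v → v ≤ C * q → |∫ t in Set.Ioc u v, gg f q t| ≤ K * (Real.log q ^ (k + 1) / q))
    (h4 : ∀ u v, c * q + 1 ≤ u → u ≤ v → v ≤ C * q →
      ∫ t in Set.Ioc u v, |gg f q t| ≤ K * ((v - u) + 1 / q) * (Real.log q ^ (k + 1) / q))
    (hc : c * q + 1 ≤ a0 * q + b0) (hCq : a1 * q + b1 ≤ C * q) (y : ℝ) (hy : a0 * p + b0 ≤ y)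
    (hy1 : y ≤ a1 * p + b1) :
    |∫ a in Set.Ioc (max a0 ((y - b1) / p)) (min a1 ((y - b0) / p)), gg f q (y + ((q : ℝ) - p) * a)| ≤
      K * (2 * (b1 - b0) + 2) * (1 / q) * (Real.log q ^ (k + 1) / q) := by
  have hp' : (0 : ℝ) < p := by exact_mod_cast hp
  have hp1 : (1 : ℝ) ≤ p := by exact_mod_cast hp
  have hq0 : (0 : ℝ) < q := by
    have : (3 : ℝ) ≤ q := by exact_mod_cast hq3
    linarith
  have hlogq : 0 < Real.log q := Real.log_pos (by
    have : (3 : ℝ) ≤ q := by exact_mod_cast hq3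
    linarith)
  have hqp : (1 : ℝ) ≤ (q : ℝ) - p := by
    have : ((p + 1 : ℕ) : ℝ) ≤ q := by exact_mod_cast hpq
    push_cast at this
    linarith
  have hqp0 : (0 : ℝ) < (q : ℝ) - p := by linarith
  set u := max a0 ((y - b1) / p) with hu
  set v := min a1 ((y - b0) / p) with hv
  set w := Real.log q ^ (k + 1) / q with hw
  have hw0 : 0 < w := by positivity
  have hB : 0 ≤ b1 - b0 := by linarith
  have hrhs : 0 ≤ K * (2 * (b1 - b0) + 2) * (1 / q) * w := by positivity
  rcases le_or_gt v u with hvu | huv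
  · rw [Set.Ioc_eq_empty (not_lt.mpr hvu)]
    simpa using hrhs
  · have e : ∫ a in Set.Ioc u v, gg f q (y + ((q : ℝ) - p) * a) =
        ((q : ℝ) - p)⁻¹ * ∫ x in Set.Ioc (y + ((q : ℝ) - p) * u) (y + ((q : ℝ) - p) * v), gg f q x := by
      rw [← intervalIntegral.integral_of_le huv.le,
        intervalIntegral.integral_comp_add_mul _ hqp0.ne', smul_eq_mul,
        intervalIntegral.integral_of_le (by gcongr)]
    rw [e, abs_mul, abs_of_pos (inv_pos.mpr hqp0)]
    have hx0 : c * q + 1 ≤ y + ((q : ℝ) - p) * u := by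
      have : ((q : ℝ) - p) * a0 ≤ ((q : ℝ) - p) * u := by
        have := le_max_left a0 ((y - b1) / p)
        gcongr
      nlinarith
    have hx1 : y + ((q : ℝ) - p) * u ≤ y + ((q : ℝ) - p) * v := by gcongr
    have hx2 : y + ((q : ℝ) - p) * v ≤ C * q := by
      have : ((q : ℝ) - p) * v ≤ ((q : ℝ) - p) * a1 := by
        have := min_le_left a1 ((y - b0) / p)
        gcongr
      nlinarith
    have g3 := h3 _ _ hx0 hx1 hx2
    have g4 := h4 _ _ hx0 hx1 hx2
    have g5 : |∫ t in Set.Ioc (y + ((q : ℝ) - p) * u) (y + ((q : ℝ) - p) * v), gg f q t| ≤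
        ∫ t in Set.Ioc (y + ((q : ℝ) - p) * u) (y + ((q : ℝ) - p) * v), |gg f q t| := abs_integral_le_integral_abs
    have hlen : (y + ((q : ℝ) - p) * v) - (y + ((q : ℝ) - p) * u) ≤ ((q : ℝ) - p) * ((b1 - b0) / p) := by
      have h6 : v - u ≤ (b1 - b0) / p := by
        have h7 : v ≤ (y - b0) / p := min_le_right _ _
        have h8 : (y - b1) / p ≤ u := le_max_right _ _
        have h9 : (y - b0) / p - (y - b1) / p = (b1 - b0) / p := by ring
        linarith
      have h10 : (y + ((q : ℝ) - p) * v) - (y + ((q : ℝ) - p) * u) = ((q : ℝ) - p) * (v - u) := by ring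
      rw [h10]
      gcongr
    rcases le_or_gt (q : ℝ) (2 * p) with hcase | hcase
    · -- close
      have k1 : (1 : ℝ) / p ≤ 2 * (1 / q) := by
        rw [div_le_iff₀ hp']
        have : 2 * (1 / (q : ℝ)) * p = (2 * p) / q := by ring
        rw [this, le_div_iff₀ hq0]
        linarith
      calc ((q : ℝ) - p)⁻¹ * |∫ t in Set.Ioc (y + ((q : ℝ) - p) * u) (y + ((q : ℝ) - p) * v), gg f q t|
          ≤ ((q : ℝ) - p)⁻¹ * (K * ((((q : ℝ) - p) * ((b1 - b0) / p)) + 1 / q) * w) := by
            gcongr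
            refine g5.trans (g4.trans ?_)
            gcongr
        _ = K * ((b1 - b0) * (1 / p) + ((q : ℝ) - p)⁻¹ * (1 / q)) * w := by
            field_simp
        _ ≤ K * ((b1 - b0) * (2 * (1 / q)) + 1 * (1 / q)) * w := by
            gcongr
            exact inv_le_one_of_one_le₀ hqp
        _ ≤ K * (2 * (b1 - b0) + 2) * (1 / q) * w := by
            have h11 : 0 < K * (1 / q) * w := by positivity
            nlinarith
    · have k1 : ((q : ℝ) - p)⁻¹ ≤ 2 * (1 / q) := by
        rw [inv_le_comm₀ hqp0 (by positivity)]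
        have : (2 * (1 / (q : ℝ)))⁻¹ = q / 2 := by field_simp
        rw [this]
        linarith
      calc ((q : ℝ) - p)⁻¹ * |∫ t in Set.Ioc (y + ((q : ℝ) - p) * u) (y + ((q : ℝ) - p) * v), gg f q t|
          ≤ (2 * (1 / q)) * (K * w) := by gcongr
        _ ≤ K * (2 * (b1 - b0) + 2) * (1 / q) * w := by
            have h11 : 0 ≤ K * (1 / q) * w * (b1 - b0) := by positivity
            nlinarith

theorem J_bounds (a0 a1 b0 b1 : ℝ) (ha0 : κ < a0) (ha : a0 ≤ a1) (hb : b0 ≤ b1) :
    ∃ C : ℝ, ∃ P0 : ℕ, 0 < C ∧ 3 ≤ P0 ∧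
      (∀ p, P0 ≤ p → |∫ a in Set.Ioc a0 a1, ∫ b in Set.Ico b0 b1, pk f p p a b| ≤ C * (Real.log p ^ (k + 1) / p)) ∧
      (∀ p q, P0 ≤ p → p < q → |∫ a in Set.Ioc a0 a1, ∫ b in Set.Ico b0 b1, pk f p q a b| ≤
        C * Real.log p ^ (k + 1) * (Real.log q ^ (k + 1) / q ^ 2)) := by
  obtain ⟨K, hK, hev⟩ := bounds hf (c := (κ + a0) / 2) (|a1| + |b1|) (by linarith)
  have hCle : ∀ q : ℕ, 1 ≤ q → a1 * q + b1 ≤ (|a1| + |b1|) * q := by
    intro q hq
    have hq1 : (1 : ℝ) ≤ q := by exact_mod_cast hq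
    have h1 := le_abs_self a1
    have h2 := le_abs_self b1
    have h3 : a1 * q ≤ |a1| * q := by gcongr
    have h4 : |b1| ≤ |b1| * q := le_mul_of_one_le_right (abs_nonneg _) hq1
    linarith
  obtain ⟨P1, hP1⟩ := eventually_atTop.mp hev
  have hκ0 := hf.kappa
  have hd : 0 < (a0 - κ) / 2 := by linarith
  obtain ⟨P2, hP2⟩ := exists_nat_gt ((1 - b0) / ((a0 - κ) / 2))
  have ha0' : 0 < a0 := by linarith
  have hB : 0 ≤ b1 - b0 := by linarith
  have hA : 0 ≤ a1 - a0 := by linarith
  refine ⟨(a1 - a0) * (K * ((b1 - b0) + 1)) + K * (2 * (b1 - b0) + 2) * (K * ((a1 - a0) + (b1 - b0) + 1)),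
    max P1 (max P2 3), by positivity, le_max_of_le_right (le_max_right _ _), ?_, ?_⟩
  · intro p hp
    have hp1 : P1 ≤ p := (le_max_left _ _).trans hp
    have hp2 : P2 ≤ p := ((le_max_left _ _).trans (le_max_right _ _)).trans hp
    have hp3 : 3 ≤ p := ((le_max_right _ _).trans (le_max_right _ _)).trans hp
    obtain ⟨h1, h2, h3, h4⟩ := hP1 p hp1
    have hp3' : (3 : ℝ) ≤ p := by exact_mod_cast hp3
    have hp0 : (0 : ℝ) < p := by linarith
    have hlog : 0 < Real.log p := Real.log_pos (by linarith)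
    have h1p : 1 / (p : ℝ) ≤ 1 := by rw [div_le_one hp0]; linarith
    have hc : (κ + a0) / 2 * p + 1 ≤ a0 * p + b0 := by
      have h5 : ((P2 : ℕ) : ℝ) ≤ p := by exact_mod_cast hp2
      have h6 : (1 - b0) / ((a0 - κ) / 2) < p := lt_of_lt_of_le hP2 h5
      rw [div_lt_iff₀ hd] at h6
      linarith
    have hin : ∀ a ∈ Set.Ioc a0 a1, ‖∫ b in Set.Ico b0 b1, pk f p p a b‖ ≤
        K * ((b1 - b0) + 1) * (Real.log p ^ (k + 1) / p) := by
      intro a haa
      rw [Real.norm_eq_abs]
      refine (diag_inner hf p a b0 b1 hb).trans ?_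
      have h5 : a0 * p ≤ a * p := by
        have := haa.1.le
        gcongr
      have h5' : a * p ≤ a1 * p := by
        have := haa.2
        gcongr
      refine (h4 _ _ (by linarith) (by linarith) (by linarith [hCle p (by omega)])).trans ?_
      have h6 : (a * p + b1) - (a * p + b0) + 1 / p ≤ (b1 - b0) + 1 := by linarith
      gcongr
    have := norm_setIntegral_le_of_norm_le_const (μ := volume) (s := Set.Ioc a0 a1) (by simp) hin
    rw [Real.norm_eq_abs, Real.volume_real_Ioc_of_le ha] at this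
    refine this.trans ?_
    have h7 : 0 ≤ K * (2 * (b1 - b0) + 2) * (K * ((a1 - a0) + (b1 - b0) + 1)) * (Real.log p ^ (k + 1) / p) := by
      positivity
    nlinarith
  · intro p q hp hpq
    have hp1 : P1 ≤ p := (le_max_left _ _).trans hp
    have hp2 : P2 ≤ p := ((le_max_left _ _).trans (le_max_right _ _)).trans hp
    have hp3 : 3 ≤ p := ((le_max_right _ _).trans (le_max_right _ _)).trans hp
    obtain ⟨-, -, -, h4p⟩ := hP1 p hp1
    obtain ⟨h1, h2, h3, h4⟩ := hP1 q (by omega)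
    have hp3' : (3 : ℝ) ≤ p := by exact_mod_cast hp3
    have hp0 : (0 : ℝ) < p := by linarith
    have hq0 : (0 : ℝ) < q := by
      have : (p : ℝ) < q := by exact_mod_cast hpq
      linarith
    have hlog : 0 < Real.log p := Real.log_pos (by linarith)
    have hlogq : 0 < Real.log q := Real.log_pos (by
      have : (p : ℝ) < q := by exact_mod_cast hpq
      linarith)
    have h1p : 1 / (p : ℝ) ≤ 1 := by rw [div_le_one hp0]; linarith
    have hcp : (κ + a0) / 2 * p + 1 ≤ a0 * p + b0 := by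
      have h5 : ((P2 : ℕ) : ℝ) ≤ p := by exact_mod_cast hp2
      have h6 : (1 - b0) / ((a0 - κ) / 2) < p := lt_of_lt_of_le hP2 h5
      rw [div_lt_iff₀ hd] at h6
      linarith
    have hcq : (κ + a0) / 2 * q + 1 ≤ a0 * q + b0 := by
      have h5 : ((P2 : ℕ) : ℝ) ≤ q := by exact_mod_cast (hp2.trans hpq.le)
      have h6 : (1 - b0) / ((a0 - κ) / 2) < q := lt_of_lt_of_le hP2 h5
      rw [div_lt_iff₀ hd] at h6
      linarith
    rw [rect_swap hf p q (by omega) a0 a1 b0 b1]
    set M := K * (2 * (b1 - b0) + 2) * (1 / q) * (Real.log q ^ (k + 1) / q) with hM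
    have hM0 : 0 ≤ M := by positivity
    have hle : a0 * p + b0 ≤ a1 * p + b1 := by
      have : a0 * p ≤ a1 * p := by gcongr
      linarith
    have hint : IntegrableOn (fun y => |gg f p y| * M) (Set.Ico (a0 * p + b0) (a1 * p + b1)) := by
      have h5 : IntegrableOn (fun y => |gg f p y| * M) (Set.Ioc (a0 * p + b0) (a1 * p + b1)) :=
        (integrableOn_abs_gg hf p _ _).mul_const M
      exact h5.congr_set_ae Ico_ae_eq_Ioc
    have key : ‖∫ y in Set.Ico (a0 * p + b0) (a1 * p + b1), gg f p y *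
        ∫ a in Set.Ioc (max a0 ((y - b1) / p)) (min a1 ((y - b0) / p)), gg f q (y + ((q : ℝ) - p) * a)‖ ≤
        ∫ y in Set.Ico (a0 * p + b0) (a1 * p + b1), |gg f p y| * M := by
      refine norm_integral_le_of_norm_le hint ?_
      refine ae_restrict_of_forall_mem measurableSet_Ico fun y hy => ?_
      rw [Real.norm_eq_abs, abs_mul]
      refine mul_le_mul_of_nonneg_left ?_ (abs_nonneg _)
      exact off_inner hf hK p q (by omega) hpq a0 a1 b0 b1 hb (by omega) h3 h4 hcq
        (hCle q (by omega)) y hy.1 hy.2.le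
    rw [Real.norm_eq_abs] at key
    refine key.trans ?_
    rw [integral_mul_const, setIntegral_congr_set (Ico_ae_eq_Ioc (μ := volume))]
    have h5 := h4p _ _ hcp hle (hCle p (by omega))
    have h6 : (a1 * p + b1) - (a0 * p + b0) + 1 / p ≤ ((a1 - a0) + (b1 - b0) + 1) * p := by
      nlinarith
    calc (∫ y in Set.Ioc (a0 * p + b0) (a1 * p + b1), |gg f p y|) * M
        ≤ (K * (((a1 - a0) + (b1 - b0) + 1) * p) * (Real.log p ^ (k + 1) / p)) * M := by
          gcongr
          refine h5.trans ?_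
          gcongr
      _ = K * (2 * (b1 - b0) + 2) * (K * ((a1 - a0) + (b1 - b0) + 1)) * Real.log p ^ (k + 1) *
            (Real.log q ^ (k + 1) / q ^ 2) := by
          rw [hM]
          field_simp
      _ ≤ _ := by
          gcongr
          have : 0 ≤ (a1 - a0) * (K * ((b1 - b0) + 1)) := by positivity
          linarith

end Pool.Agent.U916.KF
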