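import Mathlib
import Pool.Agent.U916.KF.Gen2

set_option autoImplicit false

namespace Pool.Agent.U916.KF

open Finset Filter Topology MeasureTheory

variable {f : ℕ → ℝ → ℝ} {κ : ℝ} {k : ℕ} {G : ℝ} (hf : GoodK f κ k G)
include hf

lemma integrableOn_pk (p q : ℕ) (a0 a1 b0 b1 : ℝ) :
    IntegrableOn (Function.uncurry (pk f p q)) (Set.Ioc a0 a1 ×ˢ Set.Ico b0 b1) := by
  have h : volume (Set.Ioc a0 a1 ×ˢ Set.Ico b0 b1) < ⊤ := by
    rw [Measure.volume_eq_prod, Measure.prod_prod]
    simp [Real.volume_Ioc, Real.volume_Ico, ENNReal.mul_lt_top]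
  refine Measure.integrableOn_of_bounded (M := 1) h.ne (measurable_pk hf p q).aestronglyMeasurable ?_
  exact Eventually.of_forall fun z => by rw [Real.norm_eq_abs]; exact abs_pk_le_one hf p q z.1 z.2

lemma integral_pk (p q : ℕ) (a0 a1 b0 b1 : ℝ) :
    ∫ z in Set.Ioc a0 a1 ×ˢ Set.Ico b0 b1, Function.uncurry (pk f p q) z =
      ∫ a in Set.Ioc a0 a1, ∫ b in Set.Ico b0 b1, pk f p q a b := by
  have h := integrableOn_pk hf p q a0 a1 b0 b1
  rw [Measure.volume_eq_prod] at h ⊢
  rw [setIntegral_prod _ h]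
  rfl

lemma pk_comm (p q : ℕ) (a b : ℝ) : pk f p q a b = pk f q p a b := by
  unfold pk
  ring

theorem second_moment (a0 a1 b0 b1 : ℝ) (ha0 : κ < a0) (ha : a0 ≤ a1) (hb : b0 ≤ b1) :
    ∃ C : ℝ, ∃ P0 : ℕ, 0 < C ∧ 3 ≤ P0 ∧ ∀ n : ℕ, 1 ≤ n →
      ∫ z in Set.Ioc a0 a1 ×ˢ Set.Ico b0 b1,
        (∑ p ∈ (Finset.Icc P0 n).filter Nat.Prime, gg f p (z.1 * p + z.2)) ^ 2 ≤
          C * (Real.log n + 1) ^ (2 * k + 1) := by
  obtain ⟨C, P0, hC, hP0, hd, ho⟩ := J_bounds hf a0 a1 b0 b1 ha0 ha hb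
  obtain ⟨C1, hC1⟩ := Pool.Agent.Helper601.Mertens.mertens_log
  refine ⟨5 * C * (|C1| + 1), P0, by positivity, hP0, fun n hn => ?_⟩
  set T := (Finset.Icc P0 n).filter Nat.Prime with hT
  set R := Set.Ioc a0 a1 ×ˢ Set.Ico b0 b1 with hR
  have e1 : ∀ z : ℝ × ℝ, (∑ p ∈ T, gg f p (z.1 * p + z.2)) ^ 2 =
      ∑ p ∈ T, ∑ q ∈ T, Function.uncurry (pk f p q) z := by
    intro z
    rw [sq, Finset.sum_mul_sum]
    rfl
  simp only [e1]
  rw [integral_finsetSum _ (fun p _ => integrable_finsetSum _ fun q _ => integrableOn_pk hf p q a0 a1 b0 b1)]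
  have e2 : ∀ p ∈ T, ∫ z in R, ∑ q ∈ T, Function.uncurry (pk f p q) z =
      ∑ q ∈ T, ∫ a in Set.Ioc a0 a1, ∫ b in Set.Ico b0 b1, pk f p q a b := by
    intro p _
    rw [integral_finsetSum _ (fun q _ => integrableOn_pk hf p q a0 a1 b0 b1)]
    exact Finset.sum_congr rfl fun q _ => integral_pk hf p q a0 a1 b0 b1
  rw [Finset.sum_congr rfl e2]
  -- the pointwise bound
  let B : ℕ → ℕ → ℝ := fun p q =>
    if p < q then C * Real.log p ^ (k + 1) * (Real.log q ^ (k + 1) / q ^ 2) else 0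
  have hb1 : ∀ p ∈ T, ∀ q ∈ T, ∫ a in Set.Ioc a0 a1, ∫ b in Set.Ico b0 b1, pk f p q a b ≤
      B p q + B q p + (if p = q then C * (Real.log p ^ (k + 1) / p) else 0) := by
    intro p hp q hq
    have hp' : P0 ≤ p := (Finset.mem_Icc.mp (Finset.mem_filter.mp hp).1).1
    have hq' : P0 ≤ q := (Finset.mem_Icc.mp (Finset.mem_filter.mp hq).1).1
    rcases lt_trichotomy p q with h | h | h
    · have h1 : B p q = C * Real.log p ^ (k + 1) * (Real.log q ^ (k + 1) / q ^ 2) := if_pos h
      have h2 : B q p = 0 := if_neg (by omega)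
      rw [h1, h2, if_neg (by omega)]
      linarith [le_abs_self (∫ a in Set.Ioc a0 a1, ∫ b in Set.Ico b0 b1, pk f p q a b), ho p q hp' h]
    · subst h
      have h1 : B p p = 0 := if_neg (by omega)
      rw [h1, if_pos rfl]
      linarith [le_abs_self (∫ a in Set.Ioc a0 a1, ∫ b in Set.Ico b0 b1, pk f p p a b), hd p hp']
    · have h1 : B q p = C * Real.log q ^ (k + 1) * (Real.log p ^ (k + 1) / p ^ 2) := if_pos h
      have h2 : B p q = 0 := if_neg (by omega)
      rw [h1, h2, if_neg (by omega)]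
      have h3 : ∫ a in Set.Ioc a0 a1, ∫ b in Set.Ico b0 b1, pk f p q a b =
          ∫ a in Set.Ioc a0 a1, ∫ b in Set.Ico b0 b1, pk f q p a b := by simp only [pk_comm hf p q]
      rw [h3]
      linarith [le_abs_self (∫ a in Set.Ioc a0 a1, ∫ b in Set.Ico b0 b1, pk f q p a b), ho q p hq' h]
  have hcol : ∀ q ∈ T, ∑ p ∈ T, B p q ≤ 2 * C * (Real.log q ^ (2 * k + 1) / q) := by
    intro q hq
    have hqp : q.Prime := (Finset.mem_filter.mp hq).2
    have hq0 : (0 : ℝ) < q := by exact_mod_cast hqp.pos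
    have hq1 : (1 : ℝ) ≤ q := by exact_mod_cast hqp.one_lt.le
    have hlogq : 0 ≤ Real.log q := Real.log_nonneg hq1
    have hsum : ∑ p ∈ (Finset.Icc 1 q).filter Nat.Prime, Real.log p ^ (k + 1) ≤
        Real.log q ^ k * (2 * q) := by
      calc ∑ p ∈ (Finset.Icc 1 q).filter Nat.Prime, Real.log p ^ (k + 1) ≤
          ∑ p ∈ (Finset.Icc 1 q).filter Nat.Prime, Real.log q ^ k * Real.log p := by
            refine Finset.sum_le_sum fun p hp => ?_
            have h1 := Finset.mem_filter.mp hp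
            have h2 := Finset.mem_Icc.mp h1.1
            have hp0 : (0 : ℝ) < p := by exact_mod_cast h1.2.pos
            have hlogp : 0 ≤ Real.log p := Real.log_nonneg (by exact_mod_cast h1.2.one_lt.le)
            have h3 : Real.log p ≤ Real.log q := Real.log_le_log hp0 (by exact_mod_cast h2.2)
            rw [pow_succ]
            exact mul_le_mul_of_nonneg_right (pow_le_pow_left₀ hlogp h3 k) hlogp
        _ = Real.log q ^ k * ∑ p ∈ (Finset.Icc 1 q).filter Nat.Prime, Real.log p := by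
            rw [Finset.mul_sum]
        _ ≤ _ := mul_le_mul_of_nonneg_left (Pool.Agent.H305R2.theta_le' q) (by positivity)
    calc ∑ p ∈ T, B p q = ∑ p ∈ T.filter (fun p => p < q),
          C * Real.log p ^ (k + 1) * (Real.log q ^ (k + 1) / q ^ 2) :=
          (Finset.sum_filter (fun p => p < q)
            (fun p : ℕ => C * Real.log p ^ (k + 1) * (Real.log q ^ (k + 1) / (q : ℝ) ^ 2))).symm
      _ ≤ ∑ p ∈ (Finset.Icc 1 q).filter Nat.Prime,
            C * Real.log p ^ (k + 1) * (Real.log q ^ (k + 1) / q ^ 2) := by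
          refine Finset.sum_le_sum_of_subset_of_nonneg ?_ ?_
          · intro p hp
            rw [Finset.mem_filter] at hp
            have h1 := Finset.mem_filter.mp hp.1
            have h2 := Finset.mem_Icc.mp h1.1
            exact Finset.mem_filter.mpr ⟨Finset.mem_Icc.mpr ⟨h1.2.one_lt.le, hp.2.le⟩, h1.2⟩
          · intro p hp _
            have h1 := Finset.mem_filter.mp hp
            have : 0 ≤ Real.log p := Real.log_nonneg (by exact_mod_cast h1.2.one_lt.le)
            positivity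
      _ = C * (∑ p ∈ (Finset.Icc 1 q).filter Nat.Prime, Real.log p ^ (k + 1)) *
            (Real.log q ^ (k + 1) / q ^ 2) := by
          rw [← Finset.sum_mul, ← Finset.mul_sum]
      _ ≤ C * (Real.log q ^ k * (2 * q)) * (Real.log q ^ (k + 1) / q ^ 2) := by
          gcongr
      _ = 2 * C * (Real.log q ^ (2 * k + 1) / q) := by
          have e : Real.log q ^ (2 * k + 1) = Real.log q ^ k * Real.log q ^ (k + 1) := by
            rw [← pow_add]; congr 1; ring
          rw [e]
          field_simp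
  have hdiag : ∀ q ∈ T, C * (Real.log q ^ (k + 1) / q) ≤ C * (Real.log q ^ (2 * k + 1) / q) := by
    intro q hq
    have hq' : P0 ≤ q := (Finset.mem_Icc.mp (Finset.mem_filter.mp hq).1).1
    have hq3 : (3 : ℝ) ≤ q := by exact_mod_cast hP0.trans hq'
    have hq0 : (0 : ℝ) < q := by linarith
    have hlog : 1 ≤ Real.log q := by
      rw [Real.le_log_iff_exp_le hq0]
      have := Real.exp_one_lt_d9
      linarith
    have : Real.log q ^ (k + 1) ≤ Real.log q ^ (2 * k + 1) :=
      pow_le_pow_right₀ hlog (by omega)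
    gcongr
  have hM1 : ∑ q ∈ T, Real.log q / q ≤ Real.log n + |C1| := by
    have h1 := hC1 n hn
    have h2 : ∑ q ∈ T, Real.log q / q ≤ ∑ p ∈ (Finset.Icc 1 n).filter Nat.Prime, Real.log p / p := by
      refine Finset.sum_le_sum_of_subset_of_nonneg ?_ ?_
      · intro p hp
        have h1 := Finset.mem_filter.mp hp
        have h2 := Finset.mem_Icc.mp h1.1
        exact Finset.mem_filter.mpr ⟨Finset.mem_Icc.mpr ⟨h1.2.one_lt.le, h2.2⟩, h1.2⟩
      · intro p hp _
        have h1 := Finset.mem_filter.mp hp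
        have : 0 ≤ Real.log p := Real.log_nonneg (by exact_mod_cast h1.2.one_lt.le)
        positivity
    have h3 := le_abs_self (∑ p ∈ (Finset.Icc 1 n).filter Nat.Prime, Real.log p / p - Real.log n)
    have h4 := le_abs_self C1
    linarith
  have hM : ∑ q ∈ T, Real.log q ^ (2 * k + 1) / q ≤ Real.log n ^ (2 * k) * (Real.log n + |C1|) := by
    calc ∑ q ∈ T, Real.log q ^ (2 * k + 1) / q ≤ ∑ q ∈ T, Real.log n ^ (2 * k) * (Real.log q / q) := by
          refine Finset.sum_le_sum fun q hq => ?_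
          have h1 := Finset.mem_filter.mp hq
          have h2 := Finset.mem_Icc.mp h1.1
          have hq0 : (0 : ℝ) < q := by exact_mod_cast h1.2.pos
          have hlogq : 0 ≤ Real.log q := Real.log_nonneg (by exact_mod_cast h1.2.one_lt.le)
          have h3 : Real.log q ≤ Real.log n := Real.log_le_log hq0 (by exact_mod_cast h2.2)
          rw [pow_succ, mul_div_assoc]
          exact mul_le_mul_of_nonneg_right (pow_le_pow_left₀ hlogq h3 _) (by positivity)
      _ = Real.log n ^ (2 * k) * ∑ q ∈ T, Real.log q / q := by rw [Finset.mul_sum]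
      _ ≤ _ := mul_le_mul_of_nonneg_left hM1 (by
          have : 0 ≤ Real.log n := Real.log_nonneg (by exact_mod_cast hn)
          positivity)
  calc ∑ p ∈ T, ∑ q ∈ T, ∫ a in Set.Ioc a0 a1, ∫ b in Set.Ico b0 b1, pk f p q a b
      ≤ ∑ p ∈ T, ∑ q ∈ T, (B p q + B q p + (if p = q then C * (Real.log p ^ (k + 1) / p) else 0)) :=
        Finset.sum_le_sum fun p hp => Finset.sum_le_sum fun q hq => hb1 p hp q hq
    _ = ∑ q ∈ T, ∑ p ∈ T, B p q + ∑ p ∈ T, ∑ q ∈ T, B q p +
          ∑ p ∈ T, ∑ q ∈ T, (if p = q then C * (Real.log p ^ (k + 1) / p) else 0) := by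
        simp only [Finset.sum_add_distrib]
        rw [Finset.sum_comm (f := fun p q => B p q)]
    _ ≤ ∑ q ∈ T, 2 * C * (Real.log q ^ (2 * k + 1) / q) + ∑ q ∈ T, 2 * C * (Real.log q ^ (2 * k + 1) / q) +
          ∑ q ∈ T, C * (Real.log q ^ (2 * k + 1) / q) := by
        refine add_le_add (add_le_add (Finset.sum_le_sum hcol) (Finset.sum_le_sum hcol)) ?_
        refine Finset.sum_le_sum fun p hp => ?_
        rw [Finset.sum_ite_eq, if_pos hp]
        exact hdiag p hp
    _ = 5 * C * ∑ q ∈ T, Real.log q ^ (2 * k + 1) / q := by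
        simp only [← Finset.mul_sum]
        ring
    _ ≤ 5 * C * (Real.log n ^ (2 * k) * (Real.log n + |C1|)) := by gcongr
    _ ≤ 5 * C * (|C1| + 1) * (Real.log n + 1) ^ (2 * k + 1) := by
        have h1 : 0 ≤ Real.log n := Real.log_nonneg (by exact_mod_cast hn)
        have h2 : 0 ≤ |C1| := abs_nonneg _
        have h3 : Real.log n + |C1| ≤ (|C1| + 1) * (Real.log n + 1) := by nlinarith
        have h4 : Real.log n ^ (2 * k) ≤ (Real.log n + 1) ^ (2 * k) :=
          pow_le_pow_left₀ h1 (by linarith) _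
        calc 5 * C * (Real.log n ^ (2 * k) * (Real.log n + |C1|)) ≤
            5 * C * ((Real.log n + 1) ^ (2 * k) * ((|C1| + 1) * (Real.log n + 1))) := by gcongr
          _ = _ := by rw [pow_succ]; ring

end Pool.Agent.U916.KF
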