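import Mathlib
import Pool.Agent.U916.KF.Gen3

set_option autoImplicit false

/-!
# A weighted Cesaro theorem over the primes, and passage from sampling points to all integers
-/

namespace Pool.Agent.U916.KF

open Finset Filter Topology MeasureTheory

/-- the weights `log p / p` on the primes -/
noncomputable def uu (i : ℕ) : ℝ := if i.Prime then Real.log i / i else 0

/-- partial sums of the weights -/
noncomputable def WW (n : ℕ) : ℝ := ∑ i ∈ Finset.range (n + 1), uu i

lemma uu_nonneg (i : ℕ) : 0 ≤ uu i := by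
  unfold uu
  split_ifs with h
  · have : 0 ≤ Real.log i := Real.log_nonneg (by exact_mod_cast h.one_lt.le)
    positivity
  · exact le_rfl

lemma WW_nonneg (n : ℕ) : 0 ≤ WW n := Finset.sum_nonneg fun i _ => uu_nonneg i

lemma uu_le_WW (n : ℕ) : uu n ≤ WW n :=
  Finset.single_le_sum (f := uu) (fun i _ => uu_nonneg i) (Finset.mem_range.2 (Nat.lt_succ_self n))

lemma WW_eq (n : ℕ) : WW n = ∑ p ∈ (Finset.Icc 1 n).filter Nat.Prime, Real.log p / p :=
  Pool.Agent.H305R2.sum_range_if (fun p => Real.log p / p) n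

lemma WW_ratio : Tendsto (fun n : ℕ => WW n / Real.log n) atTop (𝓝 1) := by
  simp only [WW_eq]
  exact Pool.Agent.H305R2.mertens_ratio

lemma uu_ratio : Tendsto (fun n : ℕ => uu n / Real.log n) atTop (𝓝 0) := by
  refine squeeze_zero' ?_ ?_ (tendsto_one_div_atTop_nhds_zero_nat (𝕜 := ℝ))
  · filter_upwards [eventually_ge_atTop 1] with n hn
    exact div_nonneg (uu_nonneg n) (Real.log_nonneg (by exact_mod_cast hn))
  · filter_upwards [eventually_ge_atTop 3] with n hn
    have hn0 : (3 : ℝ) ≤ n := by exact_mod_cast hn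
    have hlog : 0 < Real.log n := Real.log_pos (by linarith)
    unfold uu
    split_ifs
    · rw [div_div, mul_comm, ← div_div, div_self hlog.ne']
    · rw [zero_div]; positivity

/-- telescoping function -/
noncomputable def gk (k i : ℕ) : ℝ := WW i ^ (k + 1) - (WW i - uu i) ^ (k + 1)

/-- its quotient by the weight -/
noncomputable def hk (k i : ℕ) : ℝ := ∑ j ∈ Finset.range (k + 1), WW i ^ j * (WW i - uu i) ^ (k - j)

lemma gk_eq (k i : ℕ) : gk k i = uu i * hk k i := by
  have h := (Commute.all (WW i) (WW i - uu i)).geom_sum₂_mul (k + 1)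
  unfold gk hk
  rw [← h]
  simp only [Nat.add_sub_cancel]
  ring

lemma gk_nonneg (k i : ℕ) : 0 ≤ gk k i := by
  unfold gk
  have h1 := uu_nonneg i
  have h2 := uu_le_WW i
  exact sub_nonneg.2 (pow_le_pow_left₀ (by linarith) (by linarith) _)

lemma sum_gk (k n : ℕ) : ∑ i ∈ Finset.range (n + 1), gk k i = WW n ^ (k + 1) := by
  induction n with
  | zero =>
    rw [Finset.sum_range_one]
    unfold gk WW
    simp
  | succ n ih =>
    rw [Finset.sum_range_succ, ih]
    unfold gk
    have e : WW (n + 1) - uu (n + 1) = WW n := by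
      unfold WW
      rw [Finset.sum_range_succ _ (n + 1)]
      ring
    rw [e]
    ring

lemma hk_tendsto (k : ℕ) : Tendsto (fun i : ℕ => hk k i / Real.log i ^ k) atTop (𝓝 ((k : ℝ) + 1)) := by
  have h1 : Tendsto (fun i : ℕ => (WW i - uu i) / Real.log i) atTop (𝓝 1) := by
    have := WW_ratio.sub uu_ratio
    rw [sub_zero] at this
    refine this.congr fun i => ?_
    rw [sub_div]
  have h2 : Tendsto (fun i : ℕ => ∑ j ∈ Finset.range (k + 1),
      (WW i / Real.log i) ^ j * ((WW i - uu i) / Real.log i) ^ (k - j)) atTop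
      (𝓝 (∑ j ∈ Finset.range (k + 1), (1 : ℝ) ^ j * (1 : ℝ) ^ (k - j))) :=
    tendsto_finsetSum _ fun j _ => (WW_ratio.pow j).mul (h1.pow (k - j))
  have e : ∑ j ∈ Finset.range (k + 1), (1 : ℝ) ^ j * (1 : ℝ) ^ (k - j) = (k : ℝ) + 1 := by
    simp
  rw [e] at h2
  refine h2.congr' ?_
  filter_upwards [eventually_ge_atTop 3] with i hi
  have hi3 : (3 : ℝ) ≤ i := by exact_mod_cast hi
  have hlog : 0 < Real.log i := Real.log_pos (by linarith)
  unfold hk
  rw [Finset.sum_div]
  refine Finset.sum_congr rfl fun j hj => ?_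
  rw [Finset.mem_range] at hj
  have e2 : Real.log i ^ k = Real.log i ^ j * Real.log i ^ (k - j) := by
    rw [← pow_add]; congr 1; omega
  rw [div_pow, div_pow, e2]
  field_simp

/-- weighted Cesaro theorem for the weights `(log p) ^ (k + 1) / p` -/
lemma cesaroK (k : ℕ) (r : ℕ → ℝ) (L : ℝ)
    (hr : Tendsto (fun p : ℕ => r p * (p / Real.log p ^ (k + 1))) atTop (𝓝 L)) :
    Tendsto (fun n : ℕ => (∑ p ∈ (Finset.Icc 1 n).filter Nat.Prime, r p) / Real.log n ^ (k + 1)) atTop
      (𝓝 (L / (k + 1))) := by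
  have hk1 : (0 : ℝ) < (k : ℝ) + 1 := by positivity
  set f : ℕ → ℝ := fun i => if i.Prime then r i - L / (k + 1) * gk k i else 0 with hf
  have hWtop : Tendsto WW atTop atTop := by
    have h1 := WW_ratio.pos_mul_atTop one_pos Pool.Agent.H305R2.log_nat_tendsto
    refine h1.congr' ?_
    filter_upwards [eventually_ge_atTop 3] with n hn
    have hlog : 0 < Real.log n := Real.log_pos (by
      have : (3 : ℝ) ≤ n := by exact_mod_cast hn
      linarith)
    field_simp
  have hgtop : Tendsto (fun n => ∑ i ∈ Finset.range n, gk k i) atTop atTop := by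
    rw [← tendsto_add_atTop_iff_nat 1]
    simp only [sum_gk]
    exact (tendsto_pow_atTop (Nat.succ_ne_zero k)).comp hWtop
  have hfg : f =o[atTop] gk k := by
    rw [Asymptotics.isLittleO_iff]
    intro c hc
    have h1 : Tendsto (fun p : ℕ => r p * (p / Real.log p ^ (k + 1)) -
        L / (k + 1) * (hk k p / Real.log p ^ k)) atTop (𝓝 0) := by
      have := hr.sub ((hk_tendsto k).const_mul (L / (k + 1)))
      have e : L - L / ((k : ℝ) + 1) * ((k : ℝ) + 1) = 0 := by field_simp; ring
      rw [e] at this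
      exact this
    have h2 : ∀ᶠ p : ℕ in atTop, |r p * (p / Real.log p ^ (k + 1)) -
        L / (k + 1) * (hk k p / Real.log p ^ k)| < c / 2 := by
      have := (Metric.tendsto_nhds.mp h1) (c / 2) (by positivity)
      simpa [Real.dist_eq] using this
    have h3 : ∀ᶠ p : ℕ in atTop, 1 / 2 < hk k p / Real.log p ^ k :=
      (hk_tendsto k).eventually_const_lt (by
        have : (0 : ℝ) ≤ k := Nat.cast_nonneg k
        linarith)
    filter_upwards [h2, h3, eventually_ge_atTop 3] with p hp hp2 hp3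
    have hp3' : (3 : ℝ) ≤ p := by exact_mod_cast hp3
    have hp0 : (0 : ℝ) < p := by linarith
    have hlog : 0 < Real.log p := Real.log_pos (by linarith)
    rw [Real.norm_eq_abs, Real.norm_eq_abs, abs_of_nonneg (gk_nonneg k p)]
    simp only [hf]
    split_ifs with h
    · have hu : uu p = Real.log p / p := if_pos h
      have e : r p - L / (k + 1) * gk k p = (r p * (p / Real.log p ^ (k + 1)) -
          L / (k + 1) * (hk k p / Real.log p ^ k)) * (Real.log p ^ (k + 1) / p) := by
        rw [gk_eq, hu, pow_succ]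
        field_simp
      have e2 : gk k p = (hk k p / Real.log p ^ k) * (Real.log p ^ (k + 1) / p) := by
        rw [gk_eq, hu, pow_succ]
        field_simp
      have hw : 0 < Real.log p ^ (k + 1) / p := by positivity
      rw [e, e2, abs_mul, abs_of_pos hw, ← mul_assoc]
      refine mul_le_mul_of_nonneg_right ?_ hw.le
      nlinarith
    · rw [abs_zero]
      exact mul_nonneg hc.le (gk_nonneg k p)
  have hsum := hfg.sum_range (fun i => gk_nonneg k i) hgtop
  have hsum2 : (fun n => ∑ i ∈ Finset.range (n + 1), f i) =o[atTop]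
      fun n => ∑ i ∈ Finset.range (n + 1), gk k i :=
    hsum.comp_tendsto (tendsto_add_atTop_nat 1)
  have h2 := hsum2.tendsto_div_nhds_zero
  have hgp : ∀ n : ℕ, ∑ i ∈ Finset.range (n + 1), (if i.Prime then gk k i else 0) =
      ∑ i ∈ Finset.range (n + 1), gk k i := by
    intro n
    refine Finset.sum_congr rfl fun i _ => ?_
    split_ifs with h
    · rfl
    · rw [gk_eq, show uu i = 0 from if_neg h, zero_mul]
  have hsumf : ∀ n, ∑ i ∈ Finset.range (n + 1), f i =
      ∑ p ∈ (Finset.Icc 1 n).filter Nat.Prime, r p - L / (k + 1) * WW n ^ (k + 1) := by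
    intro n
    rw [← sum_gk, ← hgp, ← Pool.Agent.H305R2.sum_range_if r n, Finset.mul_sum,
      ← Finset.sum_sub_distrib]
    refine Finset.sum_congr rfl fun i _ => ?_
    simp only [hf]
    split_ifs <;> simp
  simp only [hsumf, sum_gk] at h2
  have hWk := WW_ratio.pow (k + 1)
  rw [one_pow] at hWk
  have h3 := (h2.mul hWk).add (hWk.const_mul (L / (k + 1)))
  simp only [zero_add, mul_one] at h3
  refine h3.congr' ?_
  filter_upwards [eventually_ge_atTop 3, hWtop.eventually_gt_atTop 0] with n hn hn2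
  have hlog : 0 < Real.log n := Real.log_pos (by
    have : (3 : ℝ) ≤ n := by exact_mod_cast hn
    linarith)
  rw [div_pow]
  field_simp
  ring

/-- from the sampling points to all integers, linear normalisation -/
lemma all_n_lin {A : ℕ → ℝ} (hA : Monotone A) (hA0 : ∀ n, 0 ≤ A n) {L : ℝ}
    (h : Tendsto (fun k : ℕ => A (Pool.Agent.H305R2.smp (k ^ 2)) / ((k ^ 2 : ℕ) : ℝ)) atTop (𝓝 L)) :
    Tendsto (fun n : ℕ => A n / Real.log n) atTop (𝓝 L) := by
  have h1 : Tendsto (fun m : ℕ => A (Pool.Agent.H305R2.smp m) / (m : ℝ)) atTop (𝓝 L) := by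
    refine tendsto_div_of_monotone_of_exists_subseq_tendsto_div (fun m => A (Pool.Agent.H305R2.smp m)) L
      (fun m n hmn => hA (Pool.Agent.H305R2.smp_mono hmn)) fun c hc => ?_
    refine ⟨fun k => k ^ 2, ?_, tendsto_pow_atTop two_ne_zero, h⟩
    have h2 : Tendsto (fun k : ℕ => (1 + 1 / (k : ℝ)) ^ 2) atTop (𝓝 ((1 + 0) ^ 2)) :=
      ((tendsto_one_div_atTop_nhds_zero_nat (𝕜 := ℝ)).const_add 1).pow 2
    have h3 : ∀ᶠ k : ℕ in atTop, (1 + 1 / (k : ℝ)) ^ 2 < c := h2.eventually (gt_mem_nhds (by simpa using hc))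
    filter_upwards [h3, eventually_ge_atTop 1] with k hk hk1
    have hk0 : (0 : ℝ) < k := by exact_mod_cast hk1
    have e : (((k + 1) ^ 2 : ℕ) : ℝ) = (1 + 1 / (k : ℝ)) ^ 2 * ((k ^ 2 : ℕ) : ℝ) := by
      push_cast
      field_simp
    rw [e]
    gcongr
  -- integer part of the logarithm
  set m : ℕ → ℕ := fun n => ⌊Real.log n⌋₊ with hm
  have hmt : Tendsto m atTop atTop := tendsto_nat_floor_atTop.comp Pool.Agent.H305R2.log_nat_tendsto
  have hlow : Tendsto (fun n : ℕ => A (Pool.Agent.H305R2.smp (m n)) / ((m n : ℝ) + 1)) atTop (𝓝 L) := by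
    have h2 : Tendsto (fun k : ℕ => A (Pool.Agent.H305R2.smp k) / (k : ℝ) * ((k : ℝ) / (k + 1))) atTop (𝓝 (L * 1)) :=
      h1.mul (tendsto_natCast_div_add_atTop (1 : ℝ))
    rw [mul_one] at h2
    refine (h2.comp hmt).congr' ?_
    filter_upwards [hmt.eventually (eventually_ge_atTop 1)] with n hn
    have : (0 : ℝ) < m n := by exact_mod_cast hn
    simp only [Function.comp]
    field_simp
  have hup : Tendsto (fun n : ℕ => A (Pool.Agent.H305R2.smp (m n + 1)) / (m n : ℝ)) atTop (𝓝 L) := by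
    have h2 : Tendsto (fun k : ℕ => A (Pool.Agent.H305R2.smp (k + 1)) / ((k + 1 : ℕ) : ℝ) * (1 + 1 / (k : ℝ))) atTop
        (𝓝 (L * (1 + 0))) :=
      ((tendsto_add_atTop_iff_nat (f := fun m : ℕ => A (Pool.Agent.H305R2.smp m) / (m : ℝ)) 1).mpr h1).mul
        ((tendsto_one_div_atTop_nhds_zero_nat (𝕜 := ℝ)).const_add 1)
    rw [add_zero, mul_one] at h2
    refine (h2.comp hmt).congr' ?_
    filter_upwards [hmt.eventually (eventually_ge_atTop 1)] with n hn
    have : (0 : ℝ) < m n := by exact_mod_cast hn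
    simp only [Function.comp]
    push_cast
    field_simp
  refine tendsto_of_tendsto_of_tendsto_of_le_of_le' hlow hup ?_ ?_
  · filter_upwards [eventually_ge_atTop 3] with n hn
    have hn0 : (3 : ℝ) ≤ n := by exact_mod_cast hn
    have hlog : 0 < Real.log n := Real.log_pos (by linarith)
    have h2 : Real.log n < m n + 1 := Nat.lt_floor_add_one _
    have h3 : Pool.Agent.H305R2.smp (m n) ≤ n := by
      have h4 : Real.exp (m n : ℝ) ≤ n := by
        rw [← Real.le_log_iff_exp_le (by linarith)]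
        exact Nat.floor_le hlog.le
      unfold Pool.Agent.H305R2.smp
      exact Nat.floor_le_of_le h4
    exact div_le_div₀ (hA0 n) (hA h3) hlog h2.le
  · filter_upwards [eventually_ge_atTop 3, hmt.eventually (eventually_ge_atTop 1)] with n hn hmn
    have hn0 : (3 : ℝ) ≤ n := by exact_mod_cast hn
    have hlog : 0 < Real.log n := Real.log_pos (by linarith)
    have hm0 : (0 : ℝ) < m n := by exact_mod_cast hmn
    have h2 : (m n : ℝ) ≤ Real.log n := Nat.floor_le hlog.le
    have h3 : n ≤ Pool.Agent.H305R2.smp (m n + 1) := by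
      have h4 : (n : ℝ) ≤ Real.exp ((m n + 1 : ℕ) : ℝ) := by
        rw [← Real.log_le_iff_le_exp (by linarith)]
        push_cast
        exact (Nat.lt_floor_add_one _).le
      unfold Pool.Agent.H305R2.smp
      exact Nat.le_floor h4
    exact div_le_div₀ (hA0 _) (hA h3) hm0 h2

/-- from the sampling points to all integers, normalisation by a power -/
lemma all_n_pow {A : ℕ → ℝ} (hA : Monotone A) (hA0 : ∀ n, 0 ≤ A n) {L : ℝ} (K : ℕ) (hK : 0 < K)
    (h : Tendsto (fun k : ℕ => A (Pool.Agent.H305R2.smp (k ^ 2)) / (((k ^ 2 : ℕ) : ℝ)) ^ K) atTop (𝓝 L)) :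
    Tendsto (fun n : ℕ => A n / Real.log n ^ K) atTop (𝓝 L) := by
  have hKr : (0 : ℝ) < K := by exact_mod_cast hK
  have hL : 0 ≤ L := ge_of_tendsto' h fun k => div_nonneg (hA0 _) (by positivity)
  set A' : ℕ → ℝ := fun n => A n ^ ((K : ℝ)⁻¹) with hA'
  have hmono : Monotone A' := fun m n hmn => Real.rpow_le_rpow (hA0 m) (hA hmn) (by positivity)
  have h0 : ∀ n, 0 ≤ A' n := fun n => Real.rpow_nonneg (hA0 n) _
  have hroot : ∀ x : ℝ, 0 ≤ x → (x ^ K) ^ ((K : ℝ)⁻¹) = x := fun x hx =>
    Real.pow_rpow_inv_natCast hx hK.ne'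
  have hroot' : ∀ x : ℝ, 0 ≤ x → (x ^ ((K : ℝ)⁻¹)) ^ K = x := fun x hx =>
    Real.rpow_inv_natCast_pow hx hK.ne'
  have h1 : Tendsto (fun k : ℕ => A' (Pool.Agent.H305R2.smp (k ^ 2)) / ((k ^ 2 : ℕ) : ℝ)) atTop
      (𝓝 (L ^ ((K : ℝ)⁻¹))) := by
    have h2 := h.rpow_const (p := (K : ℝ)⁻¹) (Or.inr (by positivity))
    refine h2.congr fun k => ?_
    rw [Real.div_rpow (hA0 _) (by positivity), hroot _ (by positivity)]
  have h2 := (all_n_lin hmono h0 h1).pow K
  rw [hroot' L hL] at h2
  refine h2.congr fun n => ?_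
  rw [div_pow, hroot' _ (hA0 n)]

end Pool.Agent.U916.KF
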