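import Mathlib
import Pool.Agent.H305R2.W2

set_option autoImplicit false

/-!
# Numbers with exactly `k` prime factors larger than `p`
-/

namespace Pool.Agent.U916.KF

open Finset Filter Topology MeasureTheory
open Pool.Agent.H305R2 (SM SMz mem_SMz SM_pos roughPart VV ZZ sum_le_VV tail_le card_le VV_le
  VV_tendsto ZZ_le_exp ZZ_nonneg VV_nonneg RR RR_nonneg RR_tendsto pr pr_nonneg)

/-- list of the prime factors exceeding `p`, with multiplicity -/
def rl (p m : ℕ) : List ℕ := m.primeFactorsList.filter (fun r => p < r)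

/-- number of prime factors exceeding `p`, with multiplicity -/
def om (p m : ℕ) : ℕ := (rl p m).length

/-- set of the prime factors exceeding `p` -/
def rs (p m : ℕ) : Finset ℕ := m.primeFactors.filter (fun q => p < q)

lemma mem_rl {p m q : ℕ} : q ∈ rl p m ↔ (q.Prime ∧ q ∣ m ∧ m ≠ 0) ∧ p < q := by
  unfold rl
  rw [List.mem_filter]
  simp only [decide_eq_true_eq]
  constructor
  · rintro ⟨h1, h2⟩
    have h3 : m ≠ 0 := by
      rintro rfl
      simp at h1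
    exact ⟨⟨Nat.prime_of_mem_primeFactorsList h1, Nat.dvd_of_mem_primeFactorsList h1, h3⟩, h2⟩
  · rintro ⟨⟨h1, h2, h3⟩, h4⟩
    exact ⟨(Nat.mem_primeFactorsList h3).2 ⟨h1, h2⟩, h4⟩

lemma mem_rs {p m q : ℕ} : q ∈ rs p m ↔ (q.Prime ∧ q ∣ m ∧ m ≠ 0) ∧ p < q := by
  unfold rs
  rw [Finset.mem_filter, Nat.mem_primeFactors]

lemma rs_eq (p m : ℕ) : rs p m = (rl p m).toFinset := by
  ext q
  rw [List.mem_toFinset, mem_rl, mem_rs]

lemma om_mul {p q n : ℕ} (hq : q.Prime) (hpq : p < q) (hn : n ≠ 0) :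
    om p (q * n) = om p n + 1 := by
  unfold om rl
  have h1 := (Nat.perm_primeFactorsList_mul hq.ne_zero hn).filter (fun r => decide (p < r))
  rw [h1.length_eq, List.filter_append, List.length_append, Nat.primeFactorsList_prime hq]
  simp [hpq]
  ring

lemma om_zero (p : ℕ) : om p 0 = 0 := by simp [om, rl]

lemma card_rs_le (p m : ℕ) : (rs p m).card ≤ om p m := by
  rw [rs_eq]
  exact List.toFinset_card_le _

lemma nodup_rl {p m : ℕ} (hm : m ≠ 0) (h : ∀ q : ℕ, q.Prime → p < q → ¬ q ^ 2 ∣ m) :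
    (rl p m).Nodup := by
  rw [List.nodup_iff_count_le_one]
  intro q
  by_contra h1
  push Not at h1
  have h2 : q ∈ rl p m := by
    rw [← List.count_pos_iff]
    omega
  obtain ⟨⟨hq, -, -⟩, hpq⟩ := mem_rl.1 h2
  refine h q hq hpq ?_
  have h3 : (rl p m).count q ≤ m.primeFactorsList.count q :=
    (List.filter_sublist (l := m.primeFactorsList)).count_le q
  rw [Nat.primeFactorsList_count_eq] at h3
  exact (Nat.Prime.pow_dvd_iff_le_factorization hq hm).2 (by omega)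

lemma om_eq_card {p m : ℕ} (hm : m ≠ 0) (h : ∀ q : ℕ, q.Prime → p < q → ¬ q ^ 2 ∣ m) :
    om p m = (rs p m).card := by
  rw [rs_eq, List.toFinset_card_of_nodup (nodup_rl hm h)]
  rfl

lemma om_eq_zero_iff {p m : ℕ} (hm : m ≠ 0) : om p m = 0 ↔ m ∈ SM p := by
  unfold om
  rw [List.length_eq_zero_iff, List.eq_nil_iff_forall_not_mem]
  constructor
  · intro h
    refine ⟨hm, fun q hq => ?_⟩
    by_contra h1
    have h2 := Nat.prime_of_mem_primeFactorsList hq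
    have h3 := Nat.dvd_of_mem_primeFactorsList hq
    exact h q (mem_rl.2 ⟨⟨h2, h3, hm⟩, by omega⟩)
  · intro h q hq
    obtain ⟨⟨h1, h2, h3⟩, h4⟩ := mem_rl.1 hq
    have := h.2 q ((Nat.mem_primeFactorsList hm).2 ⟨h1, h2⟩)
    omega

/-- the `p`-smooth part -/
def sp (p m : ℕ) : ℕ := (m.primeFactorsList.filter (fun r => decide (r < p + 1))).prod

lemma sp_mem (p m : ℕ) : sp p m ∈ SM p := Nat.prod_mem_smoothNumbers m (p + 1)

lemma roughPart_eq (p m : ℕ) : roughPart p m = (rl p m).prod := rfl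

lemma sp_mul {p m : ℕ} (hm : m ≠ 0) : sp p m * roughPart p m = m := by
  unfold sp roughPart
  conv_rhs => rw [← Nat.prod_primeFactorsList hm]
  have h1 := List.filter_append_perm (fun r => decide (r < p + 1)) m.primeFactorsList
  rw [← h1.prod_eq, List.prod_append]
  congr 2
  refine List.filter_congr fun r _ => ?_
  by_cases h2 : r < p + 1
  · have h3 : ¬ p < r := by omega
    simp [h2, h3]
  · have h3 : p < r := by omega
    simp [h2, h3]

lemma rl_pos {p m q : ℕ} (h : q ∈ rl p m) : 0 < q := (mem_rl.1 h).1.1.pos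

lemma roughPart_pos (p m : ℕ) : 0 < roughPart p m := by
  rw [roughPart_eq]
  exact List.prod_pos fun q hq => rl_pos hq

lemma log_roughPart {p m : ℕ} (hm : m ≠ 0) (h : ∀ q : ℕ, q.Prime → p < q → ¬ q ^ 2 ∣ m) :
    Real.log (roughPart p m) = ∑ q ∈ rs p m, Real.log q := by
  have h1 := nodup_rl hm h
  have h2 : roughPart p m = ∏ q ∈ rs p m, q := by
    rw [rs_eq, roughPart_eq, List.prod_toFinset _ h1, List.map_id']
  rw [h2]
  push_cast
  rw [Real.log_prod]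
  intro q hq
  have := (mem_rs.1 hq).1.1.pos
  exact_mod_cast this.ne'

lemma sum_log_rs_le {p m : ℕ} (hm : m ≠ 0) : ∑ q ∈ rs p m, Real.log q ≤ Real.log m := by
  have h2 : ∏ q ∈ rs p m, q ∣ m := by
    refine Finset.prod_primes_dvd m (fun q hq => Nat.prime_iff.1 (mem_rs.1 hq).1.1)
      fun q hq => (mem_rs.1 hq).1.2.1
  have h3 := Nat.le_of_dvd (Nat.pos_of_ne_zero hm) h2
  have h4 : Real.log ((∏ q ∈ rs p m, q : ℕ) : ℝ) = ∑ q ∈ rs p m, Real.log q := by
    push_cast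
    rw [Real.log_prod]
    intro q hq
    have := (mem_rs.1 hq).1.1.pos
    exact_mod_cast this.ne'
  rw [← h4]
  refine Real.log_le_log ?_ (by exact_mod_cast h3)
  have : 0 < ∏ q ∈ rs p m, q := Finset.prod_pos fun q hq => (mem_rs.1 hq).1.1.pos
  exact_mod_cast this

/-- Pairs (number, prime factor exceeding `p`). -/
lemma pairs (p k A B : ℕ) (w : ℕ → ℝ) (g : ℕ → ℝ) :
    ∑ m ∈ (Finset.Ioc A B).filter (fun m => om p m = k + 1), w m * ∑ q ∈ rs p m, g q =
      ∑ n ∈ (Finset.Icc 1 B).filter (fun n => om p n = k),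
        ∑ q ∈ (Finset.Ioc (A / n) (B / n)).filter (fun q => q.Prime ∧ p < q),
          w (q * n) * g q := by
  simp only [Finset.mul_sum]
  rw [Finset.sum_sigma', Finset.sum_sigma']
  refine Finset.sum_bij' (i := fun x _ => (⟨x.1 / x.2, x.2⟩ : (_ : ℕ) × ℕ))
    (j := fun x _ => (⟨x.2 * x.1, x.2⟩ : (_ : ℕ) × ℕ)) ?_ ?_ ?_ ?_ ?_
  · rintro ⟨m, q⟩ hx
    simp only [Finset.mem_sigma, Finset.mem_filter, Finset.mem_Ioc, mem_rs] at hx
    obtain ⟨⟨⟨h1, h2⟩, h3⟩, ⟨hq, ⟨n, rfl⟩, h0⟩, hpq⟩ := hx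
    have hn : n ≠ 0 := by rintro rfl; simp at h0
    have hn0 := Nat.pos_of_ne_zero hn
    have e : q * n / q = n := Nat.mul_div_cancel_left n hq.pos
    rw [om_mul hq hpq hn] at h3
    simp only [Finset.mem_sigma, Finset.mem_filter, Finset.mem_Ioc, Finset.mem_Icc]
    rw [e]
    refine ⟨⟨⟨hn0, (Nat.le_mul_of_pos_left n hq.pos).trans h2⟩, by omega⟩, ⟨?_, ?_⟩, hq, hpq⟩
    · rw [Nat.div_lt_iff_lt_mul hn0]; exact h1
    · rw [Nat.le_div_iff_mul_le hn0]; exact h2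
  · rintro ⟨n, q⟩ hx
    simp only [Finset.mem_sigma, Finset.mem_filter, Finset.mem_Ioc, Finset.mem_Icc] at hx
    obtain ⟨⟨⟨h1, h2⟩, h3⟩, ⟨h4, h5⟩, hq, hpq⟩ := hx
    have hn0 : 0 < n := h1
    simp only [Finset.mem_sigma, Finset.mem_filter, Finset.mem_Ioc, mem_rs]
    rw [Nat.div_lt_iff_lt_mul hn0] at h4
    rw [Nat.le_div_iff_mul_le hn0] at h5
    refine ⟨⟨⟨h4, h5⟩, ?_⟩, ⟨hq, dvd_mul_right _ _, (Nat.mul_pos hq.pos hn0).ne'⟩, hpq⟩
    rw [om_mul hq hpq hn0.ne', h3]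
  · rintro ⟨m, q⟩ hx
    simp only [Finset.mem_sigma, Finset.mem_filter, Finset.mem_Ioc, mem_rs] at hx
    obtain ⟨⟨⟨h1, h2⟩, h3⟩, ⟨hq, ⟨n, rfl⟩, h0⟩, hpq⟩ := hx
    have e : q * n / q = n := Nat.mul_div_cancel_left n hq.pos
    simp only [e]
  · rintro ⟨n, q⟩ hx
    simp only [Finset.mem_sigma, Finset.mem_filter, Finset.mem_Ioc, Finset.mem_Icc] at hx
    obtain ⟨⟨⟨h1, h2⟩, h3⟩, ⟨h4, h5⟩, hq, hpq⟩ := hx
    have e : q * n / q = n := Nat.mul_div_cancel_left n hq.pos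
    simp only [e]
  · rintro ⟨m, q⟩ hx
    simp only [Finset.mem_sigma, Finset.mem_filter, Finset.mem_Ioc, mem_rs] at hx
    obtain ⟨⟨⟨h1, h2⟩, h3⟩, ⟨hq, ⟨n, rfl⟩, h0⟩, hpq⟩ := hx
    have e : q * n / q = n := Nat.mul_div_cancel_left n hq.pos
    simp only [e]

end Pool.Agent.U916.KF
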