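import Mathlib
import Pool.Agent.U916.KF.Base
import Pool.Agent.H305R2.MertensM

set_option autoImplicit false

/-!
# Reciprocal sums over the numbers with exactly `k` prime factors larger than `p`
-/

namespace Pool.Agent.U916.KF

open Finset Filter Topology MeasureTheory
open Pool.Agent.H305R2 (SM SMz mem_SMz SM_pos roughPart VV ZZ sum_le_VV tail_le card_le VV_le
  VV_tendsto ZZ_le_exp ZZ_nonneg VV_nonneg RR RR_nonneg RR_tendsto pr pr_nonneg)

/-- sum of the reciprocals of the primes in `(p, Y]` -/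
noncomputable def PS (p Y : ℕ) : ℝ := ∑ q ∈ (Finset.Ioc p Y).filter Nat.Prime, (q : ℝ)⁻¹

/-- sum of `1/n` over the `n ≤ X` with exactly `k` prime factors larger than `p` -/
noncomputable def AA (p k X : ℕ) : ℝ :=
  ∑ n ∈ (Finset.Icc 1 X).filter (fun n => om p n = k), (n : ℝ)⁻¹

/-- divisible by the square of a prime larger than `p` -/
def Nsq (p m : ℕ) : Prop := ∃ q : ℕ, q.Prime ∧ p < q ∧ q ^ 2 ∣ m

noncomputable instance (p : ℕ) : DecidablePred (Nsq p) := fun _ => Classical.propDecidable _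

lemma PS_nonneg (p Y : ℕ) : 0 ≤ PS p Y := Finset.sum_nonneg fun q _ => by positivity

lemma AA_nonneg (p k X : ℕ) : 0 ≤ AA p k X := Finset.sum_nonneg fun q _ => by positivity

lemma AA_mono (p k : ℕ) {X Y : ℕ} (h : X ≤ Y) : AA p k X ≤ AA p k Y := by
  unfold AA
  refine Finset.sum_le_sum_of_subset_of_nonneg ?_ fun _ _ _ => by positivity
  exact Finset.filter_subset_filter _ (Finset.Icc_subset_Icc_right h)

lemma sum_mult (d A B : ℕ) (hd : 0 < d) :
    ∑ m ∈ (Finset.Ioc A B).filter (fun m => d ∣ m), (m : ℝ)⁻¹ =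
      (d : ℝ)⁻¹ * ∑ n ∈ Finset.Ioc (A / d) (B / d), (n : ℝ)⁻¹ := by
  rw [Finset.mul_sum]
  refine Finset.sum_bij' (i := fun m _ => m / d) (j := fun n _ => d * n) ?_ ?_ ?_ ?_ ?_
  · intro m hm
    rw [Finset.mem_filter, Finset.mem_Ioc] at hm
    obtain ⟨⟨h1, h2⟩, n, rfl⟩ := hm
    rw [Nat.mul_div_cancel_left n hd, Finset.mem_Ioc]
    constructor
    · rw [Nat.div_lt_iff_lt_mul hd, mul_comm]; exact h1
    · rw [Nat.le_div_iff_mul_le hd, mul_comm]; exact h2
  · intro n hn
    rw [Finset.mem_Ioc, Nat.div_lt_iff_lt_mul hd, Nat.le_div_iff_mul_le hd] at hn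
    rw [Finset.mem_filter, Finset.mem_Ioc, mul_comm]
    exact ⟨hn, dvd_mul_left _ _⟩
  · intro m hm
    rw [Finset.mem_filter] at hm
    exact Nat.mul_div_cancel' hm.2
  · intro n _
    exact Nat.mul_div_cancel_left n hd
  · intro m hm
    rw [Finset.mem_filter] at hm
    obtain ⟨-, n, rfl⟩ := hm
    rw [Nat.mul_div_cancel_left n hd]
    push_cast
    rw [mul_inv]

/-- Numbers divisible by the square of an integer `q > p` contribute little. -/
lemma ns_le (p A B : ℕ) (hp : 0 < p) {c : ℝ} (hc0 : 0 ≤ c)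
    (hc : ∀ q : ℕ, p < q → ∑ n ∈ Finset.Ioc (A / q ^ 2) (B / q ^ 2), (n : ℝ)⁻¹ ≤ c) :
    ∑ m ∈ (Finset.Ioc A B).filter (Nsq p), (m : ℝ)⁻¹ ≤
      c / p := by
  have hp0 : (0 : ℝ) < p := by exact_mod_cast hp
  calc ∑ m ∈ (Finset.Ioc A B).filter (Nsq p), (m : ℝ)⁻¹
      ≤ ∑ m ∈ Finset.Ioc A B, ∑ q ∈ Finset.Ioc p B, if q ^ 2 ∣ m then (m : ℝ)⁻¹ else 0 := by
        rw [Finset.sum_filter]
        refine Finset.sum_le_sum fun m hm => ?_
        rw [Finset.mem_Ioc] at hm
        split_ifs with h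
        · obtain ⟨q, hq, hpq, hd⟩ := h
          have h1 : q ≤ B := by
            have h2 := Nat.le_of_dvd (by omega) hd
            have h3 : q ≤ q ^ 2 := Nat.le_self_pow two_ne_zero q
            omega
          have h4 := Finset.single_le_sum (f := fun q => if q ^ 2 ∣ m then (m : ℝ)⁻¹ else 0)
            (s := Finset.Ioc p B) (fun i _ => by split_ifs <;> positivity)
            (Finset.mem_Ioc.2 ⟨hpq, h1⟩)
          rw [if_pos hd] at h4
          exact h4
        · exact Finset.sum_nonneg fun q _ => by split_ifs <;> positivity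
    _ = ∑ q ∈ Finset.Ioc p B, ∑ m ∈ (Finset.Ioc A B).filter (fun m => q ^ 2 ∣ m), (m : ℝ)⁻¹ := by
        rw [Finset.sum_comm]
        refine Finset.sum_congr rfl fun q _ => ?_
        rw [Finset.sum_filter]
    _ ≤ ∑ q ∈ Finset.Ioc p B, ((q : ℝ) ^ 2)⁻¹ * c := by
        refine Finset.sum_le_sum fun q hq => ?_
        rw [Finset.mem_Ioc] at hq
        rw [sum_mult (q ^ 2) A B (pow_pos (by omega) 2)]
        push_cast
        exact mul_le_mul_of_nonneg_left (hc q hq.1) (by positivity)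
    _ = (∑ q ∈ Finset.Ioc p B, ((q : ℝ) ^ 2)⁻¹) * c := by rw [Finset.sum_mul]
    _ ≤ (p : ℝ)⁻¹ * c := by
        refine mul_le_mul_of_nonneg_right ?_ hc0
        rcases le_total p B with h | h
        · have := sum_Ioc_inv_sq_le_sub (α := ℝ) hp.ne' h
          have h2 : (0 : ℝ) ≤ (B : ℝ)⁻¹ := by positivity
          linarith
        · rw [Finset.Ioc_eq_empty (by omega)]
          simp
    _ = c / p := by rw [inv_mul_eq_div]

/-- upper recursion -/
lemma AA_upper (p k X : ℕ) : ((k : ℝ) + 1) * AA p (k + 1) X ≤ PS p X * AA p k X +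
    ((k : ℝ) + 1) * ∑ m ∈ (Finset.Ioc 0 X).filter
      (Nsq p), (m : ℝ)⁻¹ := by
  have hIcc : Finset.Icc 1 X = Finset.Ioc 0 X := by
    ext x; simp only [Finset.mem_Icc, Finset.mem_Ioc]; omega
  have h1 : ((k : ℝ) + 1) * AA p (k + 1) X ≤
      ∑ m ∈ (Finset.Ioc 0 X).filter (fun m => om p m = k + 1), ((m : ℝ)⁻¹ * ∑ q ∈ rs p m, (1 : ℝ)) +
      ((k : ℝ) + 1) * ∑ m ∈ (Finset.Ioc 0 X).filter
        (Nsq p), (m : ℝ)⁻¹ := by
    unfold AA
    rw [hIcc, Finset.mul_sum, Finset.mul_sum, Finset.sum_filter, Finset.sum_filter,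
      Finset.sum_filter, ← Finset.sum_add_distrib]
    refine Finset.sum_le_sum fun m hm => ?_
    rw [Finset.mem_Ioc] at hm
    have hm0 : (0 : ℝ) ≤ (m : ℝ)⁻¹ := by positivity
    by_cases hom : om p m = k + 1
    · rw [if_pos hom, if_pos hom]
      by_cases hns : Nsq p m
      · rw [if_pos hns]
        have : 0 ≤ (m : ℝ)⁻¹ * ∑ q ∈ rs p m, (1 : ℝ) := by positivity
        linarith
      · rw [if_neg hns, add_zero]
        have h2 := om_eq_card (p := p) (m := m) (by omega) (fun q hq hpq hd => hns ⟨q, hq, hpq, hd⟩)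
        rw [Finset.sum_const, nsmul_eq_mul, mul_one, ← h2, hom]
        push_cast
        linarith
    · rw [if_neg hom, if_neg hom, zero_add]
      split_ifs
      · positivity
      · exact le_rfl
  refine h1.trans (add_le_add ?_ le_rfl)
  rw [pairs p k 0 X (fun m => (m : ℝ)⁻¹) (fun _ => 1)]
  unfold AA PS
  rw [Finset.mul_sum]
  refine Finset.sum_le_sum fun n hn => ?_
  rw [Finset.sum_mul]
  refine (Finset.sum_le_sum_of_subset_of_nonneg (t := (Finset.Ioc p X).filter Nat.Prime) ?_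
    fun _ _ _ => by positivity).trans (le_of_eq ?_)
  · intro q hq
    rw [Finset.mem_filter, Finset.mem_Ioc] at hq
    rw [Finset.mem_filter, Finset.mem_Ioc]
    exact ⟨⟨hq.2.2, hq.1.2.trans (Nat.div_le_self _ _)⟩, hq.2.1⟩
  · refine Finset.sum_congr rfl fun q _ => ?_
    push_cast
    rw [mul_inv, mul_one]

/-- lower recursion -/
lemma AA_lower (p k : ℕ) {X Y Z : ℕ} (hY : 1 ≤ Y) (h : Y * Z ≤ X) :
    PS p Y * AA p k Z ≤ ((k : ℝ) + 1) * AA p (k + 1) X := by
  have hIcc : Finset.Icc 1 X = Finset.Ioc 0 X := by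
    ext x; simp only [Finset.mem_Icc, Finset.mem_Ioc]; omega
  have h1 : ∑ m ∈ (Finset.Ioc 0 X).filter (fun m => om p m = k + 1),
      ((m : ℝ)⁻¹ * ∑ q ∈ rs p m, (1 : ℝ)) ≤ ((k : ℝ) + 1) * AA p (k + 1) X := by
    unfold AA
    rw [hIcc, Finset.mul_sum]
    refine Finset.sum_le_sum fun m hm => ?_
    rw [Finset.mem_filter] at hm
    rw [Finset.sum_const, nsmul_eq_mul, mul_one, mul_comm]
    refine mul_le_mul_of_nonneg_right ?_ (by positivity)
    have := card_rs_le p m
    rw [hm.2] at this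
    exact_mod_cast this
  refine le_trans ?_ h1
  rw [pairs p k 0 X (fun m => (m : ℝ)⁻¹) (fun _ => 1)]
  unfold AA PS
  rw [Finset.mul_sum]
  have hZX : Z ≤ X := (Nat.le_mul_of_pos_left Z hY).trans h
  refine le_trans ?_ (Finset.sum_le_sum_of_subset_of_nonneg
    (s := (Finset.Icc 1 Z).filter (fun n => om p n = k))
    (Finset.filter_subset_filter _ (Finset.Icc_subset_Icc_right hZX)) fun n _ _ =>
      Finset.sum_nonneg fun q _ => by positivity)
  refine Finset.sum_le_sum fun n hn => ?_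
  rw [Finset.mem_filter, Finset.mem_Icc] at hn
  rw [Finset.sum_mul]
  refine le_trans (le_of_eq ?_) (Finset.sum_le_sum_of_subset_of_nonneg
    (s := (Finset.Ioc p Y).filter Nat.Prime) ?_ fun _ _ _ => by positivity)
  · refine Finset.sum_congr rfl fun q _ => ?_
    push_cast
    rw [mul_inv, mul_one]
  · intro q hq
    rw [Finset.mem_filter, Finset.mem_Ioc] at hq
    rw [Finset.mem_filter, Finset.mem_Ioc]
    refine ⟨⟨?_, ?_⟩, hq.2, hq.1.1⟩
    · rw [Nat.zero_div]; exact hq.2.pos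
    · rw [Nat.le_div_iff_mul_le (by omega)]
      calc q * n ≤ Y * Z := Nat.mul_le_mul hq.1.2 hn.1.2
        _ ≤ X := h

lemma harmonic_le (X : ℕ) : ∑ n ∈ Finset.Ioc 0 X, (n : ℝ)⁻¹ ≤ 1 + Real.log X := by
  have h := harmonic_le_one_add_log X
  have e : ((harmonic X : ℚ) : ℝ) = ∑ n ∈ Finset.Ioc 0 X, (n : ℝ)⁻¹ := by
    rw [harmonic_eq_sum_Icc]
    push_cast
    refine Finset.sum_congr ?_ fun _ _ => rfl
    ext x; simp only [Finset.mem_Icc, Finset.mem_Ioc]; omega
  rw [e] at h
  exact h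

lemma log_nat_tendsto : Tendsto (fun n : ℕ => Real.log n) atTop atTop :=
  Real.tendsto_log_atTop.comp tendsto_natCast_atTop_atTop

lemma loglog_div : Tendsto (fun p : ℕ => Real.log (Real.log p) / Real.log p) atTop (𝓝 0) := by
  have h1 : Tendsto (fun x : ℝ => Real.log x / x) atTop (𝓝 0) := by
    have := Real.isLittleO_log_id_atTop.tendsto_div_nhds_zero
    exact this
  exact h1.comp log_nat_tendsto

lemma floor_exp_tendsto {c : ℝ} (hc : 0 < c) :
    Tendsto (fun p : ℕ => ⌊Real.exp (c * p)⌋₊) atTop atTop :=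
  tendsto_nat_floor_atTop.comp (Real.tendsto_exp_atTop.comp
    (tendsto_natCast_atTop_atTop.const_mul_atTop hc))

/-- `log log ⌊e ^ {c p}⌋ / log p → 1` -/
lemma loglog_floor {c : ℝ} (hc : 0 < c) :
    Tendsto (fun p : ℕ => Real.log (Real.log (⌊Real.exp (c * p)⌋₊ : ℕ)) / Real.log p) atTop
      (𝓝 1) := by
  have hlow : Tendsto (fun p : ℕ => Real.log (c / 2) * (Real.log p)⁻¹ + 1) atTop (𝓝 1) := by
    have := (tendsto_inv_atTop_zero.comp log_nat_tendsto).const_mul (Real.log (c / 2))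
    have h2 := this.add_const 1
    simpa using h2
  have hup : Tendsto (fun p : ℕ => Real.log c * (Real.log p)⁻¹ + 1) atTop (𝓝 1) := by
    have := (tendsto_inv_atTop_zero.comp log_nat_tendsto).const_mul (Real.log c)
    have h2 := this.add_const 1
    simpa using h2
  have hbig : ∀ᶠ p : ℕ in atTop, 2 ≤ c * p :=
    (tendsto_natCast_atTop_atTop.const_mul_atTop hc).eventually_ge_atTop 2
  have key : ∀ᶠ p : ℕ in atTop, c / 2 * p ≤ Real.log (⌊Real.exp (c * p)⌋₊ : ℕ) ∧
      Real.log (⌊Real.exp (c * p)⌋₊ : ℕ) ≤ c * p := by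
    filter_upwards [hbig] with p hp
    have h1 : Real.exp (c * p) < (⌊Real.exp (c * p)⌋₊ : ℝ) + 1 := Nat.lt_floor_add_one _
    have h2 : (⌊Real.exp (c * p)⌋₊ : ℝ) ≤ Real.exp (c * p) := Nat.floor_le (Real.exp_pos _).le
    have h3 : 1 ≤ ⌊Real.exp (c * p)⌋₊ := Nat.floor_pos.2 (Real.one_le_exp (by linarith))
    have h3' : (1 : ℝ) ≤ (⌊Real.exp (c * p)⌋₊ : ℝ) := by exact_mod_cast h3
    constructor
    · rw [Real.le_log_iff_exp_le (by linarith)]
      have h4 : Real.exp (c / 2 * p) * Real.exp (c / 2 * p) = Real.exp (c * p) := by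
        rw [← Real.exp_add]; congr 1; ring
      have h5 : 2 ≤ Real.exp (c / 2 * p) := by
        have := Real.add_one_le_exp (c / 2 * p)
        linarith
      nlinarith
    · rw [Real.log_le_iff_le_exp (by linarith)]
      exact h2
  refine tendsto_of_tendsto_of_tendsto_of_le_of_le' hlow hup ?_ ?_
  · filter_upwards [key, eventually_ge_atTop 3] with p hp hp3
    have hp3' : (3 : ℝ) ≤ p := by exact_mod_cast hp3
    have hlog : 0 < Real.log p := Real.log_pos (by linarith)
    rw [le_div_iff₀ hlog, add_mul, one_mul, mul_assoc, inv_mul_cancel₀ hlog.ne', mul_one,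
      ← Real.log_mul (by positivity) (by positivity)]
    exact Real.log_le_log (by positivity) hp.1
  · filter_upwards [key, eventually_ge_atTop 3] with p hp hp3
    have hp3' : (3 : ℝ) ≤ p := by exact_mod_cast hp3
    have hlog : 0 < Real.log p := Real.log_pos (by linarith)
    rw [div_le_iff₀ hlog, add_mul, one_mul, mul_assoc, inv_mul_cancel₀ hlog.ne', mul_one,
      ← Real.log_mul (by positivity) (by positivity)]
    have : 0 < c / 2 * p := by positivity
    exact Real.log_le_log (by linarith) hp.2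

lemma PS_tendsto {c : ℝ} (hc : 0 < c) :
    Tendsto (fun p : ℕ => PS p ⌊Real.exp (c * p)⌋₊ / Real.log p) atTop (𝓝 1) := by
  obtain ⟨M, hM⟩ := Pool.Agent.H305R2.mertens_inv_tendsto
  set S : ℕ → ℝ := fun N => ∑ p ∈ (Finset.Icc 1 N).filter Nat.Prime, (1 : ℝ) / p with hS
  have hinv := tendsto_inv_atTop_zero.comp log_nat_tendsto
  -- S(N)/log p
  have h1 : Tendsto (fun p : ℕ => (S ⌊Real.exp (c * p)⌋₊ -
      Real.log (Real.log (⌊Real.exp (c * p)⌋₊ : ℕ))) * (Real.log p)⁻¹) atTop (𝓝 (M * 0)) :=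
    (hM.comp (floor_exp_tendsto hc)).mul hinv
  have h2 : Tendsto (fun p : ℕ => (S p - Real.log (Real.log p)) * (Real.log p)⁻¹) atTop (𝓝 (M * 0)) :=
    hM.mul hinv
  have h3 := ((h1.add (loglog_floor hc)).sub h2).sub loglog_div
  simp only [mul_zero, zero_add, sub_zero] at h3
  refine h3.congr' ?_
  have hbig : ∀ᶠ p : ℕ in atTop, (p : ℝ) ≤ Real.exp (c * p) := by
    have h4 := (Real.tendsto_pow_mul_exp_neg_atTop_nhds_zero 1).comp
      (tendsto_natCast_atTop_atTop.const_mul_atTop hc)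
    have h5 := h4.const_mul (c⁻¹)
    rw [mul_zero] at h5
    filter_upwards [h5.eventually_lt_const one_pos] with p hp
    simp only [Function.comp, pow_one] at hp
    rw [Real.exp_neg] at hp
    have h6 : c⁻¹ * (c * (p : ℝ) * (Real.exp (c * p))⁻¹) = p / Real.exp (c * p) := by
      field_simp
    rw [h6, div_lt_one (Real.exp_pos _)] at hp
    exact hp.le
  filter_upwards [hbig, eventually_ge_atTop 3] with p hp hp3
  have hp3' : (3 : ℝ) ≤ p := by exact_mod_cast hp3
  have hlog : 0 < Real.log p := Real.log_pos (by linarith)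
  have hle : p ≤ ⌊Real.exp (c * p)⌋₊ := Nat.le_floor hp
  have e : PS p ⌊Real.exp (c * p)⌋₊ = S ⌊Real.exp (c * p)⌋₊ - S p := by
    rw [hS]
    simp only
    unfold PS
    rw [eq_sub_iff_add_eq, add_comm, Finset.sum_filter, Finset.sum_filter, Finset.sum_filter]
    have hd : Finset.Icc 1 ⌊Real.exp (c * p)⌋₊ = Finset.Icc 1 p ∪ Finset.Ioc p ⌊Real.exp (c * p)⌋₊ := by
      ext x; simp only [Finset.mem_union, Finset.mem_Icc, Finset.mem_Ioc]; omega
    rw [hd, Finset.sum_union]
    · congr 1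
      refine Finset.sum_congr rfl fun x _ => ?_
      split_ifs
      · rw [one_div]
      · rfl
    · rw [Finset.disjoint_left]
      intro x hx hx2
      rw [Finset.mem_Icc] at hx
      rw [Finset.mem_Ioc] at hx2
      omega
  rw [e]
  field_simp
  ring

/-- The reciprocal sums: `AA p k ⌊e ^ {c p}⌋ ~ e ^ γ (log p) ^ (k+1) / k!`. -/
theorem AA_tendsto (k : ℕ) : ∀ c : ℝ, 0 < c →
    Tendsto (fun p : ℕ => AA p k ⌊Real.exp (c * p)⌋₊ / Real.log p ^ (k + 1)) atTop
      (𝓝 (Real.exp Real.eulerMascheroniConstant / k.factorial)) := by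
  induction k with
  | zero =>
    intro c hc
    simp only [Nat.factorial_zero, Nat.cast_one, div_one, zero_add, pow_one]
    have e : ∀ p : ℕ, AA p 0 ⌊Real.exp (c * p)⌋₊ = ∑ n ∈ SMz p (Real.exp (c * p)), (n : ℝ)⁻¹ := by
      intro p
      unfold AA
      refine Finset.sum_congr ?_ fun _ _ => rfl
      ext n
      rw [mem_SMz (Real.exp_pos _).le, Finset.mem_filter, Finset.mem_Icc,
        Nat.le_floor_iff (Real.exp_pos _).le]
      constructor
      · rintro ⟨⟨h1, h2⟩, h3⟩
        exact ⟨(om_eq_zero_iff (by omega)).1 h3, h2⟩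
      · rintro ⟨h1, h2⟩
        have h3 := SM_pos h1
        exact ⟨⟨h3, h2⟩, (om_eq_zero_iff h3.ne').2 h1⟩
    simp only [e]
    have hsmall : Tendsto (fun p : ℕ => Real.exp (-(c / 4 * p)) / Real.log p) atTop (𝓝 0) := by
      have h1 : Tendsto (fun p : ℕ => Real.exp (-(c / 4 * p))) atTop (𝓝 0) :=
        Real.tendsto_exp_neg_atTop_nhds_zero.comp
          (tendsto_natCast_atTop_atTop.const_mul_atTop (by positivity))
      have h2 := h1.mul (tendsto_inv_atTop_zero.comp log_nat_tendsto)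
      rw [zero_mul] at h2
      exact h2
    have hlow := VV_tendsto.sub hsmall
    rw [sub_zero] at hlow
    refine tendsto_of_tendsto_of_tendsto_of_le_of_le' hlow VV_tendsto ?_ ?_
    · filter_upwards [ZZ_le_exp (show (0 : ℝ) < c / 4 by positivity), eventually_ge_atTop 3] with p hp hp3
      have hp3' : (3 : ℝ) ≤ p := by exact_mod_cast hp3
      have hlog : 0 < Real.log p := Real.log_pos (by linarith)
      rw [← sub_div]
      refine div_le_div_of_nonneg_right ?_ hlog.le
      have h1 := VV_le p (Real.exp_pos (c * p))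
      have h2 : Real.exp (c * p) ^ (-(1 / 2) : ℝ) * ZZ p ≤ Real.exp (-(c / 4 * p)) := by
        rw [← Real.exp_mul]
        calc Real.exp (c * p * (-(1 / 2))) * ZZ p ≤
            Real.exp (c * p * (-(1 / 2))) * Real.exp (c / 4 * p) := by gcongr
          _ = Real.exp (-(c / 4 * p)) := by rw [← Real.exp_add]; congr 1; ring
      linarith
    · filter_upwards [eventually_ge_atTop 3] with p hp3
      have hp3' : (3 : ℝ) ≤ p := by exact_mod_cast hp3
      have hlog : 0 < Real.log p := Real.log_pos (by linarith)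
      refine div_le_div_of_nonneg_right ?_ hlog.le
      refine sum_le_VV p _ fun n hn => ?_
      exact ((mem_SMz (Real.exp_pos _).le).1 hn).1
  | succ k ih =>
    intro c hc
    set G := Real.exp Real.eulerMascheroniConstant with hG
    have hfac : G / ((k + 1).factorial : ℝ) = (1 / ((k : ℝ) + 1)) * (1 * (G / k.factorial)) := by
      rw [Nat.factorial_succ]
      push_cast
      field_simp
    have hk1 : (0 : ℝ) < (k : ℝ) + 1 := by positivity
    rw [hfac]
    have hlow : Tendsto (fun p : ℕ => (1 / ((k : ℝ) + 1)) * (PS p ⌊Real.exp (c / 2 * p)⌋₊ / Real.log p *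
        (AA p k ⌊Real.exp (c / 2 * p)⌋₊ / Real.log p ^ (k + 1)))) atTop
        (𝓝 ((1 / ((k : ℝ) + 1)) * (1 * (G / k.factorial)))) :=
      ((PS_tendsto (half_pos hc)).mul (ih _ (half_pos hc))).const_mul _
    have hup : Tendsto (fun p : ℕ => (1 / ((k : ℝ) + 1)) * (PS p ⌊Real.exp (c * p)⌋₊ / Real.log p *
        (AA p k ⌊Real.exp (c * p)⌋₊ / Real.log p ^ (k + 1))) + (c + 1) * (Real.log p)⁻¹) atTop
        (𝓝 ((1 / ((k : ℝ) + 1)) * (1 * (G / k.factorial)) + (c + 1) * 0)) :=
      (((PS_tendsto hc).mul (ih _ hc)).const_mul _).add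
        ((tendsto_inv_atTop_zero.comp log_nat_tendsto).const_mul _)
    rw [mul_zero, add_zero] at hup
    refine tendsto_of_tendsto_of_tendsto_of_le_of_le' hlow hup ?_ ?_
    · filter_upwards [eventually_ge_atTop 3] with p hp3
      have hp3' : (3 : ℝ) ≤ p := by exact_mod_cast hp3
      have hlog : 0 < Real.log p := Real.log_pos (by linarith)
      have h1 : 1 ≤ ⌊Real.exp (c / 2 * p)⌋₊ := Nat.floor_pos.2 (Real.one_le_exp (by positivity))
      have h2 : ⌊Real.exp (c / 2 * p)⌋₊ * ⌊Real.exp (c / 2 * p)⌋₊ ≤ ⌊Real.exp (c * p)⌋₊ := by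
        refine Nat.le_floor ?_
        push_cast
        have h3 : (⌊Real.exp (c / 2 * p)⌋₊ : ℝ) ≤ Real.exp (c / 2 * p) :=
          Nat.floor_le (Real.exp_pos _).le
        have h4 : Real.exp (c / 2 * p) * Real.exp (c / 2 * p) = Real.exp (c * p) := by
          rw [← Real.exp_add]; congr 1; ring
        rw [← h4]
        exact mul_le_mul h3 h3 (by positivity) (Real.exp_pos _).le
      have h3 := AA_lower p k h1 h2
      rw [le_div_iff₀ (by positivity)]
      have e : (1 / ((k : ℝ) + 1)) * (PS p ⌊Real.exp (c / 2 * p)⌋₊ / Real.log p *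
        (AA p k ⌊Real.exp (c / 2 * p)⌋₊ / Real.log p ^ (k + 1))) * Real.log p ^ (k + 1 + 1) =
        (1 / ((k : ℝ) + 1)) * (PS p ⌊Real.exp (c / 2 * p)⌋₊ * AA p k ⌊Real.exp (c / 2 * p)⌋₊) := by
        rw [pow_succ (Real.log p) (k + 1)]
        field_simp
      rw [e, one_div, inv_mul_le_iff₀ hk1]
      exact h3
    · filter_upwards [eventually_ge_atTop 3] with p hp3
      have hp3' : (3 : ℝ) ≤ p := by exact_mod_cast hp3
      have hp0 : (0 : ℝ) < p := by linarith
      have hlog1 : 1 ≤ Real.log p := by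
        rw [Real.le_log_iff_exp_le hp0]
        have := Real.exp_one_lt_d9
        linarith
      have hlog : 0 < Real.log p := by linarith
      have h1 := AA_upper p k ⌊Real.exp (c * p)⌋₊
      have h2 : ∑ m ∈ (Finset.Ioc 0 ⌊Real.exp (c * p)⌋₊).filter
          (Nsq p), (m : ℝ)⁻¹ ≤ (1 + c * p) / p := by
        refine ns_le p 0 _ (by omega) (by positivity) fun q hq => ?_
        rw [Nat.zero_div]
        refine (Finset.sum_le_sum_of_subset_of_nonneg (t := Finset.Ioc 0 ⌊Real.exp (c * p)⌋₊)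
          (Finset.Ioc_subset_Ioc_right (Nat.div_le_self _ _)) fun _ _ _ => by positivity).trans ?_
        refine (harmonic_le _).trans ?_
        have h3 : Real.log (⌊Real.exp (c * p)⌋₊ : ℕ) ≤ c * p := by
          have h4 : 1 ≤ ⌊Real.exp (c * p)⌋₊ := Nat.floor_pos.2 (Real.one_le_exp (by positivity))
          have h5 : (1 : ℝ) ≤ (⌊Real.exp (c * p)⌋₊ : ℝ) := by exact_mod_cast h4
          rw [Real.log_le_iff_le_exp (by linarith)]
          exact Nat.floor_le (Real.exp_pos _).le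
        linarith
      have h3 : (1 + c * p) / p ≤ c + 1 := by
        rw [div_le_iff₀ hp0]
        nlinarith
      have h4 : AA p (k + 1) ⌊Real.exp (c * p)⌋₊ ≤ (1 / ((k : ℝ) + 1)) *
          (PS p ⌊Real.exp (c * p)⌋₊ * AA p k ⌊Real.exp (c * p)⌋₊) + (c + 1) := by
        rw [one_div, ← sub_le_iff_le_add, le_inv_mul_iff₀ hk1]
        nlinarith
      rw [div_le_iff₀ (by positivity)]
      have e : ((1 / ((k : ℝ) + 1)) * (PS p ⌊Real.exp (c * p)⌋₊ / Real.log p *
        (AA p k ⌊Real.exp (c * p)⌋₊ / Real.log p ^ (k + 1))) + (c + 1) * (Real.log p)⁻¹) *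
          Real.log p ^ (k + 1 + 1) =
        (1 / ((k : ℝ) + 1)) * (PS p ⌊Real.exp (c * p)⌋₊ * AA p k ⌊Real.exp (c * p)⌋₊) +
          (c + 1) * Real.log p ^ (k + 1) := by
        rw [pow_succ (Real.log p) (k + 1)]
        field_simp
      rw [e]
      have h5 : 1 ≤ Real.log p ^ (k + 1) := one_le_pow₀ hlog1
      have h6 : c + 1 ≤ (c + 1) * Real.log p ^ (k + 1) := le_mul_of_one_le_right (by positivity) h5
      linarith

end Pool.Agent.U916.KF
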