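import Mathlib
import Pool.Agent.U916.KF.Rec

set_option autoImplicit false

/-!
# Window integrals of a predicate of the largest integer below `exp t`
-/

namespace Pool.Agent.U916.KF

open Finset Filter Topology MeasureTheory
open Pool.Agent.H305R2 (NN measurable_NN mem_Ioc_log integral_ind integral_ind_le integral_ind_ge)

/-- indicator of a property of the largest integer below `exp t` -/
noncomputable def ind (Q : ℕ → Prop) [DecidablePred Q] (t : ℝ) : ℝ := if Q (NN t) then 1 else 0

variable (Q : ℕ → Prop) [DecidablePred Q]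

lemma measurable_ind : Measurable (ind Q) :=
  (measurable_from_nat (f := fun n : ℕ => if Q n then (1 : ℝ) else 0)).comp measurable_NN

lemma ind_nonneg (t : ℝ) : 0 ≤ ind Q t := by unfold ind; split_ifs <;> norm_num

lemma ind_le_one (t : ℝ) : ind Q t ≤ 1 := by unfold ind; split_ifs <;> norm_num

lemma integrableOn_ind (a b : ℝ) : IntegrableOn (ind Q) (Set.Ioc a b) := by
  refine Measure.integrableOn_of_bounded (M := 1) (by simp) (measurable_ind Q).aestronglyMeasurable ?_
  refine Eventually.of_forall fun t => ?_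
  rw [Real.norm_of_nonneg (ind_nonneg Q t)]
  exact ind_le_one Q t

/-- upper bound for window integrals -/
lemma window_upper {y y' : ℝ} (hy : 0 ≤ y) :
    ∫ t in Set.Ioc y y', ind Q t ≤
      ∑ m ∈ (Finset.Icc ⌊Real.exp y⌋₊ ⌊Real.exp y'⌋₊).filter Q, 1 / (m : ℝ) := by
  set F := (Finset.Icc ⌊Real.exp y⌋₊ ⌊Real.exp y'⌋₊).filter Q with hF
  have hA : 1 ≤ ⌊Real.exp y⌋₊ := Nat.floor_pos.2 (Real.one_le_exp hy)
  have hF1 : ∀ m ∈ F, 1 ≤ m := by
    intro m hm
    rw [hF, Finset.mem_filter, Finset.mem_Icc] at hm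
    omega
  calc ∫ t in Set.Ioc y y', ind Q t ≤ ∫ t in Set.Ioc y y', (if NN t ∈ F then (1 : ℝ) else 0) := by
        refine setIntegral_mono_on (integrableOn_ind Q y y') ?_ measurableSet_Ioc fun t ht => ?_
        · refine Measure.integrableOn_of_bounded (M := 1) (by simp) ?_ ?_
          · exact ((measurable_from_nat (f := fun n : ℕ => if n ∈ F then (1 : ℝ) else 0)).comp
              measurable_NN).aestronglyMeasurable
          · refine Eventually.of_forall fun t => ?_
            split_ifs <;> simp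
        · unfold ind
          split_ifs with h1 h2
          · exact le_rfl
          · exfalso
            apply h2
            rw [hF, Finset.mem_filter, Finset.mem_Icc]
            refine ⟨⟨?_, ?_⟩, h1⟩
            · have h3 : ⌊Real.exp y⌋₊ < ⌈Real.exp t⌉₊ := by
                rw [Nat.lt_ceil]
                exact lt_of_le_of_lt (Nat.floor_le (Real.exp_pos _).le) (Real.exp_lt_exp.2 ht.1)
              unfold NN; omega
            · have h3 : ⌈Real.exp t⌉₊ - 1 < ⌈Real.exp t⌉₊ := by
                have : 0 < ⌈Real.exp t⌉₊ := Nat.ceil_pos.2 (Real.exp_pos t)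
                omega
              rw [Nat.lt_ceil] at h3
              unfold NN
              rw [Nat.le_floor_iff (Real.exp_pos _).le]
              exact h3.le.trans (Real.exp_le_exp.2 ht.2)
          · norm_num
          · exact le_rfl
    _ = _ := integral_ind F hF1 y y'
    _ ≤ _ := Finset.sum_le_sum fun m hm => integral_ind_le (hF1 m hm) y y'

/-- lower bound for window integrals -/
lemma window_lower {y y' : ℝ} (hy : 0 ≤ y) :
    ∑ m ∈ (Finset.Ioc ⌊Real.exp y⌋₊ (⌊Real.exp y'⌋₊ - 1)).filter Q,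
        1 / ((m : ℝ) + 1) ≤ ∫ t in Set.Ioc y y', ind Q t := by
  set F := (Finset.Ioc ⌊Real.exp y⌋₊ (⌊Real.exp y'⌋₊ - 1)).filter Q with hF
  have hA : 1 ≤ ⌊Real.exp y⌋₊ := Nat.floor_pos.2 (Real.one_le_exp hy)
  have hF1 : ∀ m ∈ F, 1 ≤ m := by
    intro m hm
    rw [hF, Finset.mem_filter, Finset.mem_Ioc] at hm
    omega
  calc _ ≤ ∑ m ∈ F, ∫ t in Set.Ioc y y',
        (Set.Ioc (Real.log m) (Real.log ((m + 1 : ℕ) : ℝ))).indicator (fun _ => (1 : ℝ)) t := by
        refine Finset.sum_le_sum fun m hm => ?_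
        refine integral_ind_ge (hF1 m hm) ?_ ?_
        · rw [hF, Finset.mem_filter, Finset.mem_Ioc] at hm
          have h1 : ⌊Real.exp y⌋₊ < m := hm.1.1
          rw [Nat.floor_lt (Real.exp_pos _).le] at h1
          exact ((Real.lt_log_iff_exp_lt (lt_trans (Real.exp_pos _) h1)).2 h1).le
        · rw [hF, Finset.mem_filter, Finset.mem_Ioc] at hm
          have h1 : m + 1 ≤ ⌊Real.exp y'⌋₊ := by omega
          rw [Nat.le_floor_iff (Real.exp_pos _).le] at h1
          exact (Real.log_le_iff_le_exp (by positivity)).2 h1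
    _ = ∫ t in Set.Ioc y y', (if NN t ∈ F then (1 : ℝ) else 0) := (integral_ind F hF1 y y').symm
    _ ≤ _ := by
        refine setIntegral_mono_on ?_ (integrableOn_ind Q y y') measurableSet_Ioc fun t _ => ?_
        · refine Measure.integrableOn_of_bounded (M := 1) (by simp) ?_ ?_
          · exact ((measurable_from_nat (f := fun n : ℕ => if n ∈ F then (1 : ℝ) else 0)).comp
              measurable_NN).aestronglyMeasurable
          · refine Eventually.of_forall fun t => ?_
            split_ifs <;> simp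
        · unfold ind
          split_ifs with h1 h2
          · exact le_rfl
          · exact absurd (Finset.mem_filter.1 h1).2 h2
          · norm_num
          · exact le_rfl

/-- sum of the reciprocals of the `m` in the window with property `Q` -/
noncomputable def TT (y : ℝ) : ℝ :=
  ∑ m ∈ (Finset.Ioc ⌊Real.exp y⌋₊ ⌊Real.exp (y + 1)⌋₊).filter Q, (m : ℝ)⁻¹

lemma window_le_TT {y : ℝ} (hy : 0 ≤ y) :
    ∫ t in Set.Ioc y (y + 1), ind Q t ≤ TT Q y + 2 * Real.exp (-y) := by
  have hA : 1 ≤ ⌊Real.exp y⌋₊ := Nat.floor_pos.2 (Real.one_le_exp hy)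
  have hA' : Real.exp y / 2 ≤ (⌊Real.exp y⌋₊ : ℝ) := by
    have h1 : (1 : ℝ) ≤ ⌊Real.exp y⌋₊ := by exact_mod_cast hA
    have h2 := Nat.lt_floor_add_one (Real.exp y)
    linarith
  refine (window_upper Q hy).trans ?_
  unfold TT
  have hAB : ⌊Real.exp y⌋₊ ≤ ⌊Real.exp (y + 1)⌋₊ :=
    Nat.floor_mono (Real.exp_le_exp.2 (by linarith))
  have h1 : (Finset.Icc ⌊Real.exp y⌋₊ ⌊Real.exp (y + 1)⌋₊) =
      insert ⌊Real.exp y⌋₊ (Finset.Ioc ⌊Real.exp y⌋₊ ⌊Real.exp (y + 1)⌋₊) := by
    ext x
    simp only [Finset.mem_Icc, Finset.mem_insert, Finset.mem_Ioc]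
    omega
  rw [h1, Finset.sum_filter, Finset.sum_filter, Finset.sum_insert (by simp)]
  have h2 : (if Q ⌊Real.exp y⌋₊ then 1 / (⌊Real.exp y⌋₊ : ℝ) else 0) ≤
      2 * Real.exp (-y) := by
    have h3 : 1 / (⌊Real.exp y⌋₊ : ℝ) ≤ 2 * Real.exp (-y) := by
      calc 1 / (⌊Real.exp y⌋₊ : ℝ) ≤ 1 / (Real.exp y / 2) :=
            one_div_le_one_div_of_le (by positivity) hA'
        _ = 2 * Real.exp (-y) := by rw [Real.exp_neg]; field_simp
    split_ifs
    · exact h3
    · positivity
  simp only [one_div] at h2 ⊢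
  linarith

lemma TT_le_window {y : ℝ} (hy : 0 ≤ y) :
    TT Q y - 4 * Real.exp (-y) ≤ ∫ t in Set.Ioc y (y + 1), ind Q t := by
  have hA : 1 ≤ ⌊Real.exp y⌋₊ := Nat.floor_pos.2 (Real.one_le_exp hy)
  have hA' : Real.exp y / 2 ≤ (⌊Real.exp y⌋₊ : ℝ) := by
    have h1 : (1 : ℝ) ≤ ⌊Real.exp y⌋₊ := by exact_mod_cast hA
    have h2 := Nat.lt_floor_add_one (Real.exp y)
    linarith
  refine le_trans ?_ (window_lower Q hy)
  unfold TT
  simp only [← one_div]
  set A := ⌊Real.exp y⌋₊ with hAdef
  set B := ⌊Real.exp (y + 1)⌋₊ with hBdef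
  have hAB : A ≤ B := Nat.floor_mono (Real.exp_le_exp.2 (by linarith))
  have hA0 : (0 : ℝ) < A := by exact_mod_cast hA
  have hinv : 1 / (A : ℝ) ≤ 2 * Real.exp (-y) := by
    calc 1 / (A : ℝ) ≤ 1 / (Real.exp y / 2) := one_div_le_one_div_of_le (by positivity) hA'
      _ = 2 * Real.exp (-y) := by rw [Real.exp_neg]; field_simp
  -- telescoping sum
  have htel : ∀ N : ℕ, A ≤ N → ∑ m ∈ Finset.Ioc A N, (1 / (m : ℝ) - 1 / ((m : ℝ) + 1)) ≤ 1 / (A : ℝ) := by
    intro N hN
    have : ∑ m ∈ Finset.Ioc A N, (1 / (m : ℝ) - 1 / ((m : ℝ) + 1)) = 1 / ((A : ℝ) + 1) - 1 / ((N : ℝ) + 1) := by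
      induction N, hN using Nat.le_induction with
      | base => simp
      | succ N hN ih =>
        rw [← Finset.insert_Ioc_right_eq_Ioc_add_one hN, Finset.sum_insert (by simp), ih]
        push_cast
        ring
    rw [this]
    have h1 : 1 / ((A : ℝ) + 1) ≤ 1 / (A : ℝ) := one_div_le_one_div_of_le hA0 (by linarith)
    have h2 : 0 ≤ 1 / ((N : ℝ) + 1) := by positivity
    linarith
  rcases Nat.lt_or_ge A B with hlt | hge
  · have hB1 : A ≤ B - 1 := by omega
    have hIoc : Finset.Ioc A B = insert B (Finset.Ioc A (B - 1)) := by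
      ext x
      simp only [Finset.mem_insert, Finset.mem_Ioc]
      omega
    have hBnot : B ∉ Finset.Ioc A (B - 1) := by
      simp only [Finset.mem_Ioc]; omega
    rw [hIoc, Finset.sum_filter, Finset.sum_filter, Finset.sum_insert hBnot]
    have h2 : (if Q B then 1 / (B : ℝ) else 0) ≤ 1 / (A : ℝ) := by
      have h3 : 1 / (B : ℝ) ≤ 1 / (A : ℝ) := one_div_le_one_div_of_le hA0 (by exact_mod_cast hAB)
      split_ifs
      · exact h3
      · positivity
    have h4 : ∑ m ∈ Finset.Ioc A (B - 1), (if Q m then 1 / (m : ℝ) else 0) -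
        ∑ m ∈ Finset.Ioc A (B - 1), (if Q m then 1 / ((m : ℝ) + 1) else 0) ≤ 1 / (A : ℝ) := by
      rw [← Finset.sum_sub_distrib]
      refine le_trans (Finset.sum_le_sum fun m hm => ?_) (htel (B - 1) hB1)
      have hm0 : (0 : ℝ) < m := by
        rw [Finset.mem_Ioc] at hm
        exact_mod_cast (by omega : 0 < m)
      have : 1 / ((m : ℝ) + 1) ≤ 1 / (m : ℝ) := one_div_le_one_div_of_le hm0 (by linarith)
      split_ifs
      · exact le_rfl
      · linarith
    linarith
  · have hBA : B = A := le_antisymm hge hAB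
    rw [hBA]
    simp only [Finset.Ioc_self, Finset.filter_empty, Finset.sum_empty]
    have h5 : Finset.Ioc A (A - 1) = ∅ := by
      ext x; simp only [Finset.mem_Ioc, Finset.notMem_empty, iff_false]; omega
    rw [h5]
    simp
    positivity

end Pool.Agent.U916.KF
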