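import Mathlib
import Pool.Agent.U916.KF.Win0

set_option autoImplicit false

/-!
# Window asymptotics for the numbers with exactly `k + 1` prime factors larger than `p`
-/

namespace Pool.Agent.U916.KF

open Finset Filter Topology MeasureTheory
open Pool.Agent.H305R2 (SM SMz mem_SMz SM_pos roughPart VV ZZ sum_le_VV tail_le card_le VV_le
  VV_tendsto ZZ_le_exp ZZ_nonneg VV_nonneg RR RR_nonneg RR_tendsto pr pr_nonneg NN)

/-- sum of `log q / q` over the primes in `(z, e z]` -/
noncomputable def L1 (z : ℝ) : ℝ :=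
  ∑ q ∈ (Finset.Ioc ⌊z⌋₊ ⌊Real.exp 1 * z⌋₊).filter Nat.Prime, Real.log q / q

lemma RR_eq_filter (z : ℝ) : RR z =
    ∑ q ∈ (Finset.Ioc ⌊z⌋₊ ⌊Real.exp 1 * z⌋₊).filter Nat.Prime, (q : ℝ)⁻¹ := by
  unfold RR pr
  rw [Finset.sum_filter]
  refine Finset.sum_congr rfl fun k _ => ?_
  split_ifs <;> simp

lemma L1_tendsto : Tendsto L1 atTop (𝓝 1) := by
  have hlogtop := Real.tendsto_log_atTop
  have h1 : Tendsto (fun z : ℝ => RR z * Real.log z * (1 + (Real.log z)⁻¹)) atTop (𝓝 (1 * (1 + 0))) :=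
    RR_tendsto.mul ((tendsto_inv_atTop_zero.comp hlogtop).const_add 1)
  rw [add_zero, mul_one] at h1
  refine tendsto_of_tendsto_of_tendsto_of_le_of_le' RR_tendsto h1 ?_ ?_
  · filter_upwards [eventually_gt_atTop 1] with z hz
    have hz0 : 0 < z := by linarith
    rw [RR_eq_filter, Finset.sum_mul]
    unfold L1
    refine Finset.sum_le_sum fun q hq => ?_
    rw [Finset.mem_filter, Finset.mem_Ioc, Nat.floor_lt hz0.le] at hq
    rw [div_eq_mul_inv, mul_comm]
    exact mul_le_mul_of_nonneg_right (Real.log_le_log hz0 hq.1.1.le) (by positivity)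
  · filter_upwards [eventually_gt_atTop 1] with z hz
    have hz0 : 0 < z := by linarith
    have hlz : 0 < Real.log z := Real.log_pos hz
    have e : RR z * Real.log z * (1 + (Real.log z)⁻¹) = RR z * (1 + Real.log z) := by
      field_simp
      ring
    rw [e, RR_eq_filter, Finset.sum_mul]
    unfold L1
    refine Finset.sum_le_sum fun q hq => ?_
    rw [Finset.mem_filter, Finset.mem_Ioc, Nat.floor_lt hz0.le,
      Nat.le_floor_iff (by positivity)] at hq
    rw [div_eq_mul_inv, mul_comm]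
    refine mul_le_mul_of_nonneg_left ?_ (by positivity)
    have hq0 : (0 : ℝ) < q := by linarith [hq.1.1]
    calc Real.log q ≤ Real.log (Real.exp 1 * z) := Real.log_le_log hq0 hq.1.2
      _ = 1 + Real.log z := by rw [Real.log_mul (Real.exp_pos 1).ne' hz0.ne', Real.log_exp]

lemma H3 {x : ℝ} (hx : 0 < x) : ∑ n ∈ Finset.Ioc ⌊x⌋₊ ⌊Real.exp 1 * x⌋₊, (n : ℝ)⁻¹ ≤ 3 := by
  have he : Real.exp 1 ≤ 3 := by have := Real.exp_one_lt_d9; linarith
  calc ∑ k ∈ Finset.Ioc ⌊x⌋₊ ⌊Real.exp 1 * x⌋₊, (k : ℝ)⁻¹ ≤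
      ∑ k ∈ Finset.Ioc ⌊x⌋₊ ⌊Real.exp 1 * x⌋₊, x⁻¹ := by
        refine Finset.sum_le_sum fun k hk => ?_
        rw [Finset.mem_Ioc, Nat.floor_lt hx.le] at hk
        exact inv_anti₀ hx hk.1.le
    _ = ((⌊Real.exp 1 * x⌋₊ - ⌊x⌋₊ : ℕ) : ℝ) * x⁻¹ := by
        rw [Finset.sum_const, Nat.card_Ioc, nsmul_eq_mul]
    _ ≤ (Real.exp 1 * x) * x⁻¹ := by
        refine mul_le_mul_of_nonneg_right ?_ (by positivity)
        calc ((⌊Real.exp 1 * x⌋₊ - ⌊x⌋₊ : ℕ) : ℝ) ≤ (⌊Real.exp 1 * x⌋₊ : ℝ) := by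
              exact_mod_cast Nat.sub_le _ _
          _ ≤ _ := Nat.floor_le (by positivity)
    _ = Real.exp 1 := by field_simp
    _ ≤ 3 := he

lemma scaled (y : ℝ) (d : ℕ) : Finset.Ioc ⌊Real.exp y / d⌋₊ ⌊Real.exp 1 * (Real.exp y / d)⌋₊ =
    Finset.Ioc (⌊Real.exp y⌋₊ / d) (⌊Real.exp (y + 1)⌋₊ / d) := by
  have e : Real.exp 1 * (Real.exp y / d) = Real.exp (y + 1) / d := by
    rw [Real.exp_add]; ring
  rw [e, Nat.floor_div_natCast, Nat.floor_div_natCast]

lemma H3' (y : ℝ) {d : ℕ} (hd : 0 < d) :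
    ∑ n ∈ Finset.Ioc (⌊Real.exp y⌋₊ / d) (⌊Real.exp (y + 1)⌋₊ / d), (n : ℝ)⁻¹ ≤ 3 := by
  rw [← scaled]
  have hd0 : (0 : ℝ) < d := by exact_mod_cast hd
  exact H3 (by positivity)

/-- numbers of the window with a large smooth part -/
lemma big_smooth (p : ℕ) (y : ℝ) {z : ℝ} (hz : 0 < z) :
    ∑ m ∈ (Finset.Ioc ⌊Real.exp y⌋₊ ⌊Real.exp (y + 1)⌋₊).filter (fun m => z < (sp p m : ℝ)),
      (m : ℝ)⁻¹ ≤ 3 * (z ^ (-(1 / 2) : ℝ) * ZZ p) := by
  set A := ⌊Real.exp y⌋₊ with hA
  set B := ⌊Real.exp (y + 1)⌋₊ with hB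
  calc ∑ m ∈ (Finset.Ioc A B).filter (fun m => z < (sp p m : ℝ)), (m : ℝ)⁻¹
      ≤ ∑ m ∈ Finset.Ioc A B, ∑ d ∈ (SMz p (B : ℝ)).filter (fun d : ℕ => z < (d : ℝ)),
          if d ∣ m then (m : ℝ)⁻¹ else 0 := by
        rw [Finset.sum_filter]
        refine Finset.sum_le_sum fun m hm => ?_
        rw [Finset.mem_Ioc] at hm
        have hm0 : m ≠ 0 := by omega
        split_ifs with h
        · have h1 : sp p m ∣ m := ⟨_, (sp_mul hm0).symm⟩
          have h2 : sp p m ≤ m := Nat.le_of_dvd (Nat.pos_of_ne_zero hm0) h1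
          have h4 := Finset.single_le_sum (f := fun d => if d ∣ m then (m : ℝ)⁻¹ else 0)
            (s := (SMz p (B : ℝ)).filter (fun d : ℕ => z < (d : ℝ)))
            (fun i _ => by split_ifs <;> positivity)
            (Finset.mem_filter.2 ⟨(mem_SMz (by positivity)).2 ⟨sp_mem p m, by
              exact_mod_cast h2.trans hm.2⟩, h⟩)
          rw [if_pos h1] at h4
          exact h4
        · exact Finset.sum_nonneg fun q _ => by split_ifs <;> positivity
    _ = ∑ d ∈ (SMz p (B : ℝ)).filter (fun d : ℕ => z < (d : ℝ)),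
          ∑ m ∈ (Finset.Ioc A B).filter (fun m => d ∣ m), (m : ℝ)⁻¹ := by
        rw [Finset.sum_comm]
        refine Finset.sum_congr rfl fun q _ => ?_
        rw [Finset.sum_filter]
    _ ≤ ∑ d ∈ (SMz p (B : ℝ)).filter (fun d : ℕ => z < (d : ℝ)), (d : ℝ)⁻¹ * 3 := by
        refine Finset.sum_le_sum fun d hd => ?_
        rw [Finset.mem_filter, mem_SMz (by positivity)] at hd
        have hd0 := SM_pos hd.1.1
        rw [sum_mult d A B hd0]
        exact mul_le_mul_of_nonneg_left (H3' y hd0) (by positivity)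
    _ = 3 * ∑ d ∈ (SMz p (B : ℝ)).filter (fun d : ℕ => z < (d : ℝ)), (d : ℝ)⁻¹ := by
        rw [← Finset.sum_mul, mul_comm]
    _ ≤ 3 * (z ^ (-(1 / 2) : ℝ) * ZZ p) := by
        refine mul_le_mul_of_nonneg_left (tail_le p hz _ fun s hs => ?_) (by norm_num)
        rw [Finset.mem_filter, mem_SMz (by positivity)] at hs
        exact ⟨hs.1.1, hs.2.le⟩

/-- upper bound for the reciprocal sum over the window -/
lemma TT_upper {p k : ℕ} {y δ X : ℝ} (hp : 0 < p) (hδ : 0 < δ) (hδ1 : δ < 1)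
    (hL : ∀ x, X ≤ x → L1 x ≤ 1 + δ) (hX : Real.exp 1 * X ≤ p) (hy0 : 0 < y) :
    TT (fun m => om p m = k + 1) y ≤ (1 + δ) / ((1 - δ) * y) * AA p k ⌊Real.exp (y + 1)⌋₊ +
      (3 / p + 3 * (Real.exp (-(δ * y / 2)) * ZZ p)) := by
  have hp0 : (0 : ℝ) < p := by exact_mod_cast hp
  set A := ⌊Real.exp y⌋₊ with hA
  set B := ⌊Real.exp (y + 1)⌋₊ with hB
  set z := Real.exp (δ * y) with hz
  have hz0 : 0 < z := Real.exp_pos _
  have h1δ : 0 < 1 - δ := by linarith
  have hpt : TT (fun m => om p m = k + 1) y ≤ (1 / ((1 - δ) * y)) *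
      ∑ m ∈ (Finset.Ioc A B).filter (fun m => om p m = k + 1), ((m : ℝ)⁻¹ * ∑ q ∈ rs p m, Real.log q) +
      (∑ m ∈ (Finset.Ioc A B).filter (Nsq p), (m : ℝ)⁻¹ +
        ∑ m ∈ (Finset.Ioc A B).filter (fun m => z < (sp p m : ℝ)), (m : ℝ)⁻¹) := by
    unfold TT
    rw [Finset.mul_sum, Finset.sum_filter, Finset.sum_filter, Finset.sum_filter, Finset.sum_filter,
      ← Finset.sum_add_distrib, ← Finset.sum_add_distrib]
    refine Finset.sum_le_sum fun m hm => ?_
    rw [Finset.mem_Ioc] at hm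
    have hm0 : m ≠ 0 := by omega
    have hmr : (0 : ℝ) < m := by exact_mod_cast Nat.pos_of_ne_zero hm0
    have hlogs : 0 ≤ ∑ q ∈ rs p m, Real.log q := Finset.sum_nonneg fun q hq =>
      Real.log_nonneg (by exact_mod_cast (mem_rs.1 hq).1.1.one_lt.le)
    by_cases hom : om p m = k + 1
    · rw [if_pos hom, if_pos hom]
      have hterm : 0 ≤ 1 / ((1 - δ) * y) * ((m : ℝ)⁻¹ * ∑ q ∈ rs p m, Real.log q) := by positivity
      by_cases hns : Nsq p m
      · rw [if_pos hns]
        have : (0 : ℝ) ≤ if z < (sp p m : ℝ) then (m : ℝ)⁻¹ else 0 := by split_ifs <;> positivity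
        linarith
      · rw [if_neg hns]
        by_cases hsp : z < (sp p m : ℝ)
        · rw [if_pos hsp]
          linarith
        · rw [if_neg hsp, add_zero, add_zero]
          have hlr := log_roughPart hm0 (fun q hq hpq hd => hns ⟨q, hq, hpq, hd⟩)
          have hsp0 : (0 : ℝ) < sp p m := by exact_mod_cast SM_pos (sp_mem p m)
          have hrp0 : (0 : ℝ) < roughPart p m := by exact_mod_cast roughPart_pos p m
          have h1 : Real.log m = Real.log (sp p m) + Real.log (roughPart p m) := by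
            rw [← Real.log_mul hsp0.ne' hrp0.ne']
            congr 1
            exact_mod_cast (sp_mul hm0).symm
          have h2 : y ≤ Real.log m := by
            rw [Real.le_log_iff_exp_le hmr]
            exact (Nat.lt_of_floor_lt hm.1).le
          have h3 : Real.log (sp p m) ≤ δ * y := by
            rw [Real.log_le_iff_le_exp hsp0]
            exact not_lt.1 hsp
          have h4 : (1 - δ) * y ≤ ∑ q ∈ rs p m, Real.log q := by
            rw [← hlr]; linarith
          have h5 : 1 ≤ 1 / ((1 - δ) * y) * ∑ q ∈ rs p m, Real.log q := by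
            rw [one_div, inv_mul_eq_div, le_div_iff₀ (by positivity), one_mul]
            exact h4
          calc (m : ℝ)⁻¹ = (m : ℝ)⁻¹ * 1 := (mul_one _).symm
            _ ≤ (m : ℝ)⁻¹ * (1 / ((1 - δ) * y) * ∑ q ∈ rs p m, Real.log q) :=
                mul_le_mul_of_nonneg_left h5 (by positivity)
            _ = _ := by ring
    · rw [if_neg hom, if_neg hom, zero_add]
      split_ifs <;> positivity
  refine hpt.trans (add_le_add ?_ (add_le_add ?_ ?_))
  · rw [pairs p k A B (fun m => (m : ℝ)⁻¹) (fun q => Real.log q)]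
    have h1 : ∑ n ∈ (Finset.Icc 1 B).filter (fun n => om p n = k),
        ∑ q ∈ (Finset.Ioc (A / n) (B / n)).filter (fun q => q.Prime ∧ p < q),
          (((q * n : ℕ) : ℝ)⁻¹) * Real.log q ≤ (1 + δ) * AA p k B := by
      unfold AA
      rw [Finset.mul_sum]
      refine Finset.sum_le_sum fun n hn => ?_
      rw [Finset.mem_filter, Finset.mem_Icc] at hn
      have hn0 : (0 : ℝ) < n := by exact_mod_cast hn.1.1
      have e : ∑ q ∈ (Finset.Ioc (A / n) (B / n)).filter (fun q => q.Prime ∧ p < q),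
          (((q * n : ℕ) : ℝ)⁻¹) * Real.log q =
          (∑ q ∈ (Finset.Ioc (A / n) (B / n)).filter (fun q => q.Prime ∧ p < q), Real.log q / q) *
            (n : ℝ)⁻¹ := by
        rw [Finset.sum_mul]
        refine Finset.sum_congr rfl fun q _ => ?_
        push_cast
        rw [mul_inv]
        ring
      rw [e]
      refine mul_le_mul_of_nonneg_right ?_ (by positivity)
      rcases le_or_gt X (Real.exp y / n) with hXn | hXn
      · refine le_trans ?_ (hL _ hXn)
        unfold L1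
        rw [scaled]
        refine Finset.sum_le_sum_of_subset_of_nonneg ?_ fun q hq _ => ?_
        · intro q hq
          rw [Finset.mem_filter] at hq ⊢
          exact ⟨hq.1, hq.2.1⟩
        · rw [Finset.mem_filter] at hq
          have : 0 ≤ Real.log q := Real.log_nonneg (by exact_mod_cast hq.2.one_lt.le)
          positivity
      · have h2 : (Finset.Ioc (A / n) (B / n)).filter (fun q => q.Prime ∧ p < q) = ∅ := by
          rw [Finset.filter_eq_empty_iff]
          rintro q hq ⟨-, hpq⟩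
          rw [Finset.mem_Ioc] at hq
          have h3 : (q : ℝ) ≤ Real.exp (y + 1) / n := by
            have h4 : q ≤ ⌊Real.exp (y + 1) / n⌋₊ := by
              rw [Nat.floor_div_natCast]; exact hq.2
            exact (Nat.le_floor_iff (by positivity)).1 h4
          have h5 : Real.exp (y + 1) / n = Real.exp 1 * (Real.exp y / n) := by
            rw [Real.exp_add]; ring
          have h6 : Real.exp 1 * (Real.exp y / n) < Real.exp 1 * X :=
            mul_lt_mul_of_pos_left hXn (Real.exp_pos 1)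
          have h7 : (p : ℝ) < q := by exact_mod_cast hpq
          linarith
        rw [h2, Finset.sum_empty]
        linarith
    calc _ ≤ (1 / ((1 - δ) * y)) * ((1 + δ) * AA p k B) :=
          mul_le_mul_of_nonneg_left h1 (by positivity)
      _ = _ := by ring
  · refine ns_le p A B hp (by norm_num) fun q hq => ?_
    exact H3' y (pow_pos (by omega) 2)
  · refine (big_smooth p y hz0).trans (le_of_eq ?_)
    rw [hz, ← Real.exp_mul]
    congr 3
    ring_nf

/-- lower bound for the reciprocal sum over the window -/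
lemma TT_lower {p k : ℕ} {y δ X : ℝ} (hδ1 : δ < 1)
    (hL : ∀ x, X ≤ x → 1 - δ ≤ L1 x) (hX : X ≤ Real.exp (y / 2)) (hp : (p : ℝ) ≤ Real.exp (y / 2))
    (hy0 : 0 < y) :
    (1 - δ) / (y + 1) * AA p k ⌊Real.exp (y / 2)⌋₊ ≤ TT (fun m => om p m = k + 1) y := by
  set A := ⌊Real.exp y⌋₊ with hA
  set B := ⌊Real.exp (y + 1)⌋₊ with hB
  have h1δ : 0 < 1 - δ := by linarith
  have hpt : (1 / (y + 1)) * ∑ m ∈ (Finset.Ioc A B).filter (fun m => om p m = k + 1),
      ((m : ℝ)⁻¹ * ∑ q ∈ rs p m, Real.log q) ≤ TT (fun m => om p m = k + 1) y := by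
    unfold TT
    rw [Finset.mul_sum]
    refine Finset.sum_le_sum fun m hm => ?_
    rw [Finset.mem_filter, Finset.mem_Ioc] at hm
    have hm0 : m ≠ 0 := by omega
    have hmr : (0 : ℝ) < m := by exact_mod_cast Nat.pos_of_ne_zero hm0
    have h1 := sum_log_rs_le (p := p) hm0
    have h2 : Real.log m ≤ y + 1 := by
      rw [Real.log_le_iff_le_exp hmr]
      exact (Nat.le_floor_iff (Real.exp_pos _).le).1 hm.1.2
    have h3 : 1 / (y + 1) * ∑ q ∈ rs p m, Real.log q ≤ 1 := by
      rw [one_div, inv_mul_eq_div, div_le_iff₀ (by positivity), one_mul]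
      linarith
    calc 1 / (y + 1) * ((m : ℝ)⁻¹ * ∑ q ∈ rs p m, Real.log q) =
        (m : ℝ)⁻¹ * (1 / (y + 1) * ∑ q ∈ rs p m, Real.log q) := by ring
      _ ≤ (m : ℝ)⁻¹ * 1 := mul_le_mul_of_nonneg_left h3 (by positivity)
      _ = _ := mul_one _
  refine le_trans ?_ hpt
  rw [pairs p k A B (fun m => (m : ℝ)⁻¹) (fun q => Real.log q)]
  have h1 : (1 - δ) * AA p k ⌊Real.exp (y / 2)⌋₊ ≤
      ∑ n ∈ (Finset.Icc 1 B).filter (fun n => om p n = k),
        ∑ q ∈ (Finset.Ioc (A / n) (B / n)).filter (fun q => q.Prime ∧ p < q),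
          (((q * n : ℕ) : ℝ)⁻¹) * Real.log q := by
    unfold AA
    rw [Finset.mul_sum]
    have hZB : ⌊Real.exp (y / 2)⌋₊ ≤ B := Nat.floor_mono (Real.exp_le_exp.2 (by linarith))
    refine le_trans ?_ (Finset.sum_le_sum_of_subset_of_nonneg
      (s := (Finset.Icc 1 ⌊Real.exp (y / 2)⌋₊).filter (fun n => om p n = k))
      (Finset.filter_subset_filter _ (Finset.Icc_subset_Icc_right hZB)) fun n _ _ =>
        Finset.sum_nonneg fun q hq => ?_)
    · refine Finset.sum_le_sum fun n hn => ?_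
      rw [Finset.mem_filter, Finset.mem_Icc] at hn
      have hn0 : (0 : ℝ) < n := by exact_mod_cast hn.1.1
      have hn2 : (n : ℝ) ≤ Real.exp (y / 2) := (Nat.le_floor_iff (Real.exp_pos _).le).1 hn.1.2
      have e : ∑ q ∈ (Finset.Ioc (A / n) (B / n)).filter (fun q => q.Prime ∧ p < q),
          (((q * n : ℕ) : ℝ)⁻¹) * Real.log q =
          (∑ q ∈ (Finset.Ioc (A / n) (B / n)).filter (fun q => q.Prime ∧ p < q), Real.log q / q) *
            (n : ℝ)⁻¹ := by
        rw [Finset.sum_mul]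
        refine Finset.sum_congr rfl fun q _ => ?_
        push_cast
        rw [mul_inv]
        ring
      rw [e]
      refine mul_le_mul_of_nonneg_right ?_ (by positivity)
      have hge : Real.exp (y / 2) ≤ Real.exp y / n := by
        rw [le_div_iff₀ hn0]
        calc Real.exp (y / 2) * n ≤ Real.exp (y / 2) * Real.exp (y / 2) :=
              mul_le_mul_of_nonneg_left hn2 (Real.exp_pos _).le
          _ = Real.exp y := by rw [← Real.exp_add]; congr 1; ring
      refine (hL _ (hX.trans hge)).trans ?_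
      unfold L1
      rw [scaled]
      refine Finset.sum_le_sum_of_subset_of_nonneg ?_ fun q hq _ => ?_
      · intro q hq
        rw [Finset.mem_filter] at hq ⊢
        refine ⟨hq.1, hq.2, ?_⟩
        have h4 := (Finset.mem_Ioc.1 hq.1).1
        rw [← Nat.floor_div_natCast] at h4
        have h5 : Real.exp y / n < q := Nat.lt_of_floor_lt h4
        have h6 : (p : ℝ) < q := by linarith
        exact_mod_cast h6
      · rw [Finset.mem_filter] at hq
        have : 0 ≤ Real.log q := Real.log_nonneg (by exact_mod_cast hq.2.1.one_lt.le)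
        positivity
    · rw [Finset.mem_filter] at hq
      have : 0 ≤ Real.log q := Real.log_nonneg (by exact_mod_cast hq.2.1.one_lt.le)
      positivity
  calc _ = (1 / (y + 1)) * ((1 - δ) * AA p k ⌊Real.exp (y / 2)⌋₊) := by ring
    _ ≤ _ := mul_le_mul_of_nonneg_left h1 (by positivity)

lemma AA_tendsto_seq (k : ℕ) {a : ℝ} (ha : 0 < a) {u : ℕ → ℝ}
    (hu : Tendsto (fun p : ℕ => u p / p) atTop (𝓝 a)) :
    Tendsto (fun p : ℕ => AA p k ⌊Real.exp (u p)⌋₊ / Real.log p ^ (k + 1)) atTop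
      (𝓝 (Real.exp Real.eulerMascheroniConstant / k.factorial)) := by
  refine tendsto_of_tendsto_of_tendsto_of_le_of_le' (AA_tendsto k (a / 2) (by positivity))
    (AA_tendsto k (2 * a) (by positivity)) ?_ ?_
  · filter_upwards [hu.eventually_const_lt (show a / 2 < a by linarith), eventually_ge_atTop 3]
      with p hp hp3
    have hp3' : (3 : ℝ) ≤ p := by exact_mod_cast hp3
    have hlog : 0 < Real.log p := Real.log_pos (by linarith)
    refine div_le_div_of_nonneg_right ?_ (by positivity)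
    refine AA_mono p k (Nat.floor_mono (Real.exp_le_exp.2 ?_))
    rw [lt_div_iff₀ (by linarith)] at hp
    exact hp.le
  · filter_upwards [hu.eventually_lt_const (show a < 2 * a by linarith), eventually_ge_atTop 3]
      with p hp hp3
    have hp3' : (3 : ℝ) ≤ p := by exact_mod_cast hp3
    have hlog : 0 < Real.log p := Real.log_pos (by linarith)
    refine div_le_div_of_nonneg_right ?_ (by positivity)
    refine AA_mono p k (Nat.floor_mono (Real.exp_le_exp.2 ?_))
    rw [div_lt_iff₀ (by linarith)] at hp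
    exact hp.le

end Pool.Agent.U916.KF
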