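import Mathlib
import Pool.Agent.U916.KF.Win1

set_option autoImplicit false

namespace Pool.Agent.U916.KF

open Finset Filter Topology MeasureTheory
open Pool.Agent.H305R2 (VV ZZ ZZ_le_exp ZZ_nonneg NN)

/-- error terms tend to zero -/
lemma error_tendsto {a : ℝ} (ha : 0 < a) {y : ℕ → ℝ} (hy : Tendsto (fun p : ℕ => y p / p) atTop (𝓝 a))
    {δ : ℝ} (hδ : 0 < δ) (k : ℕ) :
    Tendsto (fun p : ℕ => ((3 / p + 3 * (Real.exp (-(δ * y p / 2)) * ZZ p)) + 4 * Real.exp (-(y p))) *
      (p / Real.log p ^ (k + 1))) atTop (𝓝 0) := by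
  have h1 := Pool.Agent.H305R2.error_tendsto ha hy hδ
  have h2 : Tendsto (fun p : ℕ => 3 * (Real.log p)⁻¹ +
      (p : ℝ) * (3 * (Real.exp (-(δ * y p / 2)) * ZZ p) + 4 * Real.exp (-(y p)))) atTop
      (𝓝 (3 * 0 + 0)) := ((tendsto_inv_atTop_zero.comp log_nat_tendsto).const_mul 3).add h1
  rw [mul_zero, add_zero] at h2
  refine squeeze_zero' ?_ ?_ h2
  · refine Eventually.of_forall fun p => ?_
    have := ZZ_nonneg p
    rcases Nat.eq_zero_or_pos p with h | h
    · subst h; simp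
    · have h1 : (1 : ℝ) ≤ p := by exact_mod_cast h
      have : 0 ≤ Real.log p := Real.log_nonneg h1
      positivity
  · filter_upwards [eventually_ge_atTop 3] with p hp3
    have hp3' : (3 : ℝ) ≤ p := by exact_mod_cast hp3
    have hp0 : (0 : ℝ) < p := by linarith
    have hlog1 : 1 ≤ Real.log p := by
      rw [Real.le_log_iff_exp_le hp0]
      have := Real.exp_one_lt_d9
      linarith
    have hlog : 0 < Real.log p := by linarith
    have hZ := ZZ_nonneg p
    have h5 : 1 ≤ Real.log p ^ (k + 1) := one_le_pow₀ hlog1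
    have h6 : Real.log p ≤ Real.log p ^ (k + 1) := by
      rw [pow_succ']
      exact le_mul_of_one_le_right hlog.le (one_le_pow₀ hlog1)
    have h7 : (p : ℝ) / Real.log p ^ (k + 1) ≤ p := div_le_self hp0.le h5
    have h8 : (1 : ℝ) / Real.log p ^ (k + 1) ≤ (Real.log p)⁻¹ := by
      rw [one_div]
      exact inv_anti₀ hlog h6
    have e : ((3 / p + 3 * (Real.exp (-(δ * y p / 2)) * ZZ p)) + 4 * Real.exp (-(y p))) *
      (p / Real.log p ^ (k + 1)) = 3 * (1 / Real.log p ^ (k + 1)) +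
      (p / Real.log p ^ (k + 1)) * (3 * (Real.exp (-(δ * y p / 2)) * ZZ p) + 4 * Real.exp (-(y p))) := by
      field_simp
      ring
    rw [e]
    refine add_le_add (mul_le_mul_of_nonneg_left h8 (by norm_num)) ?_
    exact mul_le_mul_of_nonneg_right h7 (by positivity)

/-- indicator of the event that the largest integer below `exp t` has exactly `k` prime factors
larger than `p` -/
noncomputable def fk (k p : ℕ) (t : ℝ) : ℝ := ind (fun m => om p m = k) t

/-- **Window asymptotics.** -/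
theorem window_asymp (k : ℕ) {a : ℝ} (ha : 0 < a) {y : ℕ → ℝ}
    (hy : Tendsto (fun p : ℕ => y p / p) atTop (𝓝 a)) :
    Tendsto (fun p : ℕ => (∫ t in Set.Ioc (y p) (y p + 1), fk (k + 1) p t) *
      (p / Real.log p ^ (k + 1))) atTop
      (𝓝 (Real.exp Real.eulerMascheroniConstant / k.factorial / a)) := by
  set G := Real.exp Real.eulerMascheroniConstant / k.factorial with hG
  have hytop : Tendsto y atTop atTop := by
    have h1 : Tendsto (fun p : ℕ => y p / p * p) atTop atTop :=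
      hy.pos_mul_atTop ha (tendsto_natCast_atTop_atTop (R := ℝ))
    refine h1.congr' ?_
    filter_upwards [eventually_ge_atTop 1] with p hp
    have hp0 : (0 : ℝ) < p := by exact_mod_cast hp
    field_simp
  rw [Metric.tendsto_atTop]
  intro ε hε
  -- choose δ
  have hδ : ∃ δ : ℝ, 0 < δ ∧ δ < 1 ∧ G * ((1 + δ) / (1 - δ)) / a < G / a + ε / 2 ∧
      G / a - ε / 2 < G * (1 - δ) / a := by
    have h1 : Tendsto (fun δ : ℝ => G * ((1 + δ) / (1 - δ)) / a) (𝓝[>] 0) (𝓝 (G / a)) := by
      have : ContinuousAt (fun δ : ℝ => G * ((1 + δ) / (1 - δ)) / a) 0 := by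
        refine ContinuousAt.div_const (ContinuousAt.mul continuousAt_const
          (ContinuousAt.div (by fun_prop) (by fun_prop) (by norm_num))) _
      have h2 := this.tendsto.mono_left (nhdsWithin_le_nhds (s := Set.Ioi 0))
      simpa using h2
    have h2 : Tendsto (fun δ : ℝ => G * (1 - δ) / a) (𝓝[>] 0) (𝓝 (G / a)) := by
      have : ContinuousAt (fun δ : ℝ => G * (1 - δ) / a) 0 := by fun_prop
      have h2 := this.tendsto.mono_left (nhdsWithin_le_nhds (s := Set.Ioi 0))
      simpa using h2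
    have h3 := h1.eventually_lt_const (show G / a < G / a + ε / 2 by linarith)
    have h4 := h2.eventually_const_lt (show G / a - ε / 2 < G / a by linarith)
    have h5 : ∀ᶠ δ : ℝ in 𝓝[>] 0, δ < 1 :=
      (eventually_lt_nhds (show (0 : ℝ) < 1 by norm_num)).filter_mono nhdsWithin_le_nhds
    obtain ⟨δ, hδ⟩ := ((self_mem_nhdsWithin (a := (0 : ℝ)) (s := Set.Ioi 0)) |>
      fun h => (h3.and (h4.and (h5.and h))).exists)
    exact ⟨δ, hδ.2.2.2, hδ.2.2.1, hδ.1, hδ.2.1⟩
  obtain ⟨δ, hδ0, hδ1, hup, hlow⟩ := hδ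
  -- L1 asymptotics
  obtain ⟨X, hX⟩ : ∃ X : ℝ, ∀ x, X ≤ x → |L1 x - 1| < δ := by
    have := (Metric.tendsto_nhds.1 L1_tendsto) δ hδ0
    simp only [Real.dist_eq] at this
    exact this.exists_forall_of_atTop
  have hLu : ∀ x, X ≤ x → L1 x ≤ 1 + δ := fun x hx => by
    have := abs_lt.1 (hX x hx); linarith [this.2]
  have hLl : ∀ x, X ≤ x → 1 - δ ≤ L1 x := fun x hx => by
    have := abs_lt.1 (hX x hx); linarith [this.1]
  -- limits of the bounds
  have hpy : Tendsto (fun p : ℕ => (p : ℝ) / y p) atTop (𝓝 a⁻¹) := by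
    refine (hy.inv₀ ha.ne').congr fun p => ?_
    rw [inv_div]
  have hone : Tendsto (fun p : ℕ => (1 : ℝ) / p) atTop (𝓝 0) := tendsto_one_div_atTop_nhds_zero_nat
  have hy1 : Tendsto (fun p : ℕ => (y p + 1) / p) atTop (𝓝 a) := by
    have h := hy.add hone
    rw [add_zero] at h
    refine h.congr fun p => ?_
    rw [add_div]
  have hy2 : Tendsto (fun p : ℕ => (y p / 2) / p) atTop (𝓝 (a / 2)) := by
    refine (hy.div_const 2).congr fun p => ?_
    ring
  have hpy1 : Tendsto (fun p : ℕ => (p : ℝ) / (y p + 1)) atTop (𝓝 a⁻¹) := by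
    refine (hy1.inv₀ ha.ne').congr fun p => ?_
    rw [inv_div]
  have hVu := (AA_tendsto_seq k ha hy1).mul hpy
  have hVl := (AA_tendsto_seq k (half_pos ha) hy2).mul hpy1
  have herr := error_tendsto ha hy hδ0 k
  have hU := (hVu.const_mul ((1 + δ) / (1 - δ))).add herr
  have hL := (hVl.const_mul (1 - δ)).sub herr
  rw [← hG] at hU hL
  have hU' := hU.eventually_lt_const (show (1 + δ) / (1 - δ) * (G * a⁻¹) + 0 < G / a + ε / 2 by
    have : (1 + δ) / (1 - δ) * (G * a⁻¹) + 0 = G * ((1 + δ) / (1 - δ)) / a := by ring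
    rw [this]; exact hup)
  have hL' := hL.eventually_const_lt (show G / a - ε / 2 < (1 - δ) * (G * a⁻¹) - 0 by
    have : (1 - δ) * (G * a⁻¹) - 0 = G * (1 - δ) / a := by ring
    rw [this]; exact hlow)
  -- the technical eventual conditions
  have hcond1 : ∀ᶠ p : ℕ in atTop, Real.exp 1 * X ≤ p :=
    tendsto_natCast_atTop_atTop.eventually_ge_atTop _
  have hcond2 : ∀ᶠ p : ℕ in atTop, (1 : ℝ) < y p := hytop.eventually_gt_atTop 1
  have hcond3 : ∀ᶠ p : ℕ in atTop, (p : ℝ) ≤ Real.exp (y p / 2) := by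
    have hyge : ∀ᶠ p : ℕ in atTop, a / 2 * p ≤ y p := by
      have h1 := hy.eventually_const_lt (show a / 2 < a by linarith)
      filter_upwards [h1, eventually_ge_atTop 1] with p hp hp1
      have hp0 : (0 : ℝ) < p := by exact_mod_cast hp1
      rw [lt_div_iff₀ hp0] at hp
      exact hp.le
    have hc : 0 < a / 4 := by positivity
    have h4 := (Real.tendsto_pow_mul_exp_neg_atTop_nhds_zero 1).comp
      (tendsto_natCast_atTop_atTop.const_mul_atTop hc)
    have h5 := h4.const_mul ((a / 4)⁻¹)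
    rw [mul_zero] at h5
    filter_upwards [h5.eventually_lt_const one_pos, hyge] with p hp hyp
    simp only [Function.comp, pow_one] at hp
    rw [Real.exp_neg] at hp
    have h6 : (a / 4)⁻¹ * (a / 4 * (p : ℝ) * (Real.exp (a / 4 * p))⁻¹) = p / Real.exp (a / 4 * p) := by
      field_simp
    rw [h6, div_lt_one (Real.exp_pos _)] at hp
    refine hp.le.trans (Real.exp_le_exp.2 ?_)
    linarith
  have hcond4 : ∀ᶠ p : ℕ in atTop, X ≤ Real.exp (y p / 2) :=
    (Real.tendsto_exp_atTop.comp (hytop.atTop_div_const two_pos)).eventually_ge_atTop X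
  obtain ⟨P, hP⟩ := (hU'.and (hL'.and (hcond1.and (hcond2.and (hcond3.and (hcond4.and
    (eventually_ge_atTop 3))))))).exists_forall_of_atTop
  refine ⟨P, fun p hp => ?_⟩
  obtain ⟨h1, h2, h3, h4, h5, h6, h7⟩ := hP p hp
  have hp3 : (3 : ℝ) ≤ p := by exact_mod_cast h7
  have hp0 : (0 : ℝ) < p := by linarith
  have hy0 : 0 < y p := by linarith
  have hlog0 : 0 < Real.log p := Real.log_pos (by linarith)
  have hpl0 : 0 < (p : ℝ) / Real.log p ^ (k + 1) := by positivity
  have hTu := TT_upper (p := p) (k := k) (by omega) hδ0 hδ1 hLu h3 hy0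
  have hTl := TT_lower (p := p) (k := k) hδ1 hLl h6 h5 hy0
  have hWu := window_le_TT (fun m => om p m = k + 1) hy0.le
  have hWl := TT_le_window (fun m => om p m = k + 1) hy0.le
  have hZ := ZZ_nonneg p
  have hE1 : 0 ≤ Real.exp (-(δ * y p / 2)) * ZZ p := by positivity
  have hE2 : 0 ≤ Real.exp (-(y p)) := (Real.exp_pos _).le
  have hE3 : (0 : ℝ) ≤ 3 / p := by positivity
  change dist ((∫ t in Set.Ioc (y p) (y p + 1), ind (fun m => om p m = k + 1) t) *
      (p / Real.log p ^ (k + 1))) (G / a) < ε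
  have h1δ : (0 : ℝ) < 1 - δ := by linarith
  rw [Real.dist_eq, abs_lt]
  constructor
  · have e : (∫ t in Set.Ioc (y p) (y p + 1), ind (fun m => om p m = k + 1) t) ≥
      (1 - δ) / (y p + 1) * AA p k ⌊Real.exp (y p / 2)⌋₊ -
      ((3 / p + 3 * (Real.exp (-(δ * y p / 2)) * ZZ p)) + 4 * Real.exp (-(y p))) := by
      linarith
    have e2 := mul_le_mul_of_nonneg_right e hpl0.le
    have e4 : (1 - δ) / (y p + 1) * AA p k ⌊Real.exp (y p / 2)⌋₊ * (p / Real.log p ^ (k + 1)) =
        (1 - δ) * (AA p k ⌊Real.exp (y p / 2)⌋₊ / Real.log p ^ (k + 1) * (p / (y p + 1))) := by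
      field_simp
    rw [sub_mul, e4] at e2
    linarith
  · have e : (∫ t in Set.Ioc (y p) (y p + 1), ind (fun m => om p m = k + 1) t) ≤
      (1 + δ) / ((1 - δ) * y p) * AA p k ⌊Real.exp (y p + 1)⌋₊ +
      ((3 / p + 3 * (Real.exp (-(δ * y p / 2)) * ZZ p)) + 4 * Real.exp (-(y p))) := by
      linarith
    have e2 := mul_le_mul_of_nonneg_right e hpl0.le
    have e4 : (1 + δ) / ((1 - δ) * y p) * AA p k ⌊Real.exp (y p + 1)⌋₊ * (p / Real.log p ^ (k + 1)) =
        (1 + δ) / (1 - δ) * (AA p k ⌊Real.exp (y p + 1)⌋₊ / Real.log p ^ (k + 1) * (p / y p)) := by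
      field_simp
    rw [add_mul, e4] at e2
    linarith

end Pool.Agent.U916.KF
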