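import Mathlib
import Pool.Agent.U916.KF.Win2

set_option autoImplicit false

/-!
# Short windows
-/

namespace Pool.Agent.U916.KF

open Finset Filter Topology MeasureTheory
open Pool.Agent.H305R2 (SM SMz mem_SMz SM_pos roughPart VV ZZ sum_le_VV tail_le card_le VV_le
  VV_tendsto ZZ_le_exp ZZ_nonneg VV_nonneg NN count_inner)

lemma card_mult (d A B : ℕ) (hd : 0 < d) :
    ((Finset.Ioc A B).filter (fun m => d ∣ m)).card = (Finset.Ioc (A / d) (B / d)).card := by
  refine Finset.card_bij' (i := fun m _ => m / d) (j := fun n _ => d * n) ?_ ?_ ?_ ?_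
  · intro m hm
    rw [Finset.mem_filter, Finset.mem_Ioc] at hm
    obtain ⟨⟨h1, h2⟩, n, rfl⟩ := hm
    rw [Nat.mul_div_cancel_left n hd, Finset.mem_Ioc]
    constructor
    · rw [Nat.div_lt_iff_lt_mul hd, mul_comm]; exact h1
    · rw [Nat.le_div_iff_mul_le hd, mul_comm]; exact h2
  · intro n hn
    rw [Finset.mem_Ioc, Nat.div_lt_iff_lt_mul hd, Nat.le_div_iff_mul_le hd] at hn
    rw [Finset.mem_filter, Finset.mem_Ioc, mul_comm]
    exact ⟨hn, dvd_mul_left _ _⟩
  · intro m hm
    rw [Finset.mem_filter] at hm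
    exact Nat.mul_div_cancel' hm.2
  · intro n _
    exact Nat.mul_div_cancel_left n hd

lemma card_mult_le (d A B : ℕ) (hd : 0 < d) (hAB : A ≤ B) :
    (((Finset.Ioc A B).filter (fun m => d ∣ m)).card : ℝ) ≤ (B - A : ℕ) * (d : ℝ)⁻¹ + 1 := by
  rw [card_mult d A B hd, Nat.card_Ioc]
  have hdiv : B / d ≤ A / d + ((B - A) / d + 1) := by
    have h1 : B = A + (B - A) := by omega
    conv_lhs => rw [h1]
    rw [Nat.div_le_iff_le_mul_add_pred hd]
    have h2 := Nat.div_add_mod A d
    have h3 := Nat.div_add_mod (B - A) d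
    have h4 := Nat.mod_lt A hd
    have h5 := Nat.mod_lt (B - A) hd
    have h6 : d * (A / d + ((B - A) / d + 1)) = d * (A / d) + d * ((B - A) / d) + d := by ring
    rw [h6]
    omega
  have h1 : B / d - A / d ≤ (B - A) / d + 1 := Nat.sub_le_iff_le_add'.2 hdiv
  calc ((B / d - A / d : ℕ) : ℝ) ≤ (((B - A) / d + 1 : ℕ) : ℝ) := by exact_mod_cast h1
    _ ≤ _ := by
      push_cast
      have := @Nat.cast_div_le ℝ _ _ _ (B - A) d
      rw [← div_eq_mul_inv]
      linarith

/-- counting the numbers with a large smooth part -/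
lemma card_big_smooth (p A B : ℕ) (hAB : A ≤ B) (hB0 : 0 < B) {z : ℝ} (hz : 0 < z) :
    (((Finset.Ioc A B).filter (fun m => z < (sp p m : ℝ))).card : ℝ) ≤
      (B - A : ℕ) * (z ^ (-(1 / 2) : ℝ) * ZZ p) + (B : ℝ) ^ (1 / 2 : ℝ) * ZZ p := by
  have hsub : (Finset.Ioc A B).filter (fun m => z < (sp p m : ℝ)) ⊆
      ((SMz p (B : ℝ)).filter (fun d : ℕ => z < (d : ℝ))).biUnion
        (fun d => (Finset.Ioc A B).filter (fun m => d ∣ m)) := by
    intro m hm
    rw [Finset.mem_filter, Finset.mem_Ioc] at hm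
    have hm0 : m ≠ 0 := by omega
    have h1 : sp p m ∣ m := ⟨_, (sp_mul hm0).symm⟩
    have h2 : sp p m ≤ m := Nat.le_of_dvd (Nat.pos_of_ne_zero hm0) h1
    rw [Finset.mem_biUnion]
    refine ⟨sp p m, ?_, ?_⟩
    · rw [Finset.mem_filter, mem_SMz (by positivity)]
      exact ⟨⟨sp_mem p m, by exact_mod_cast h2.trans hm.1.2⟩, hm.2⟩
    · rw [Finset.mem_filter, Finset.mem_Ioc]
      exact ⟨hm.1, h1⟩
  have h1 := (Finset.card_le_card hsub).trans Finset.card_biUnion_le
  calc (((Finset.Ioc A B).filter (fun m => z < (sp p m : ℝ))).card : ℝ) ≤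
      ∑ d ∈ (SMz p (B : ℝ)).filter (fun d : ℕ => z < (d : ℝ)),
        (((Finset.Ioc A B).filter (fun m => d ∣ m)).card : ℝ) := by exact_mod_cast h1
    _ ≤ ∑ d ∈ (SMz p (B : ℝ)).filter (fun d : ℕ => z < (d : ℝ)), ((B - A : ℕ) * (d : ℝ)⁻¹ + 1) := by
        refine Finset.sum_le_sum fun d hd => ?_
        rw [Finset.mem_filter, mem_SMz (by positivity)] at hd
        exact card_mult_le d A B (SM_pos hd.1.1) hAB
    _ = (B - A : ℕ) * ∑ d ∈ (SMz p (B : ℝ)).filter (fun d : ℕ => z < (d : ℝ)), (d : ℝ)⁻¹ +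
        (((SMz p (B : ℝ)).filter (fun d : ℕ => z < (d : ℝ))).card : ℝ) := by
        rw [Finset.sum_add_distrib, Finset.mul_sum]
        simp
    _ ≤ _ := by
        refine add_le_add ?_ ?_
        · refine mul_le_mul_of_nonneg_left (tail_le p hz _ fun s hs => ?_) (by positivity)
          rw [Finset.mem_filter, mem_SMz (by positivity)] at hs
          exact ⟨hs.1.1, hs.2.le⟩
        · refine card_le p (by exact_mod_cast hB0) _ fun s hs => ?_
          rw [Finset.mem_filter, mem_SMz (by positivity)] at hs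
          exact hs.1

/-- a number with `k + 1` prime factors larger than `p` has a large one -/
lemma exists_large {p k m : ℕ} {Z : ℝ} (hZ : 1 ≤ Z) (hom : om p m = k + 1)
    (h : Z ^ (k + 1) ≤ (roughPart p m : ℝ)) : ∃ q ∈ rs p m, Z ≤ (q : ℝ) := by
  by_contra hcon
  push Not at hcon
  have h1 : ∀ q ∈ rl p m, (q : ℝ) < Z := by
    intro q hq
    refine hcon q ?_
    rw [rs_eq, List.mem_toFinset]
    exact hq
  have key : ∀ l : List ℕ, (∀ q ∈ l, (q : ℝ) < Z) → ((l.prod : ℕ) : ℝ) ≤ Z ^ l.length ∧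
      (l ≠ [] → ((l.prod : ℕ) : ℝ) < Z ^ l.length) := by
    intro l
    induction l with
    | nil => intro _; simp
    | cons x l ih =>
      intro hl
      have h2 := (ih fun q hq => hl q (List.mem_cons_of_mem _ hq)).1
      have h3 := hl x List.mem_cons_self
      have hZ0 : 0 < Z ^ l.length := by positivity
      have h4 : (((x :: l).prod : ℕ) : ℝ) < Z ^ (x :: l).length := by
        rw [List.prod_cons, List.length_cons, pow_succ', Nat.cast_mul]
        calc (x : ℝ) * (l.prod : ℝ) ≤ (x : ℝ) * Z ^ l.length :=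
              mul_le_mul_of_nonneg_left (by exact_mod_cast h2) (by positivity)
          _ < Z * Z ^ l.length := mul_lt_mul_of_pos_right h3 hZ0
      exact ⟨h4.le, fun _ => h4⟩
  have h2 : (rl p m) ≠ [] := by
    intro h0
    unfold om at hom
    rw [h0] at hom
    simp at hom
  have h3 := (key _ h1).2 h2
  have h4 : (rl p m).length = k + 1 := hom
  rw [h4] at h3
  rw [roughPart_eq] at h
  linarith

/-- **Short windows**: upper bound of the right order of magnitude. -/
theorem window_short (k : ℕ) {c C c' : ℝ} (hc : 0 < c) (hc' : 0 < c') :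
    ∃ K : ℝ, 0 < K ∧ ∀ᶠ p : ℕ in atTop, ∀ y : ℝ, c * p ≤ y → y ≤ C * p →
      ∀ h : ℝ, c' / p ≤ h → h ≤ 1 →
      ∫ t in Set.Ioc y (y + h), fk (k + 1) p t ≤ K * h * (Real.log p ^ (k + 1) / p) := by
  obtain ⟨C0, hC01, hBT⟩ := Pool.Agent.Helper601.brun_titchmarsh
  set K1 := Real.exp Real.eulerMascheroniConstant / k.factorial + 1 with hK1
  have hK1pos : 0 < K1 := by positivity
  have hk1 : (0 : ℝ) < (k : ℝ) + 1 := by positivity
  refine ⟨96 * (k + 1) * C0 * K1 / c + 10, by positivity, ?_⟩
  have hC1 : 0 < |C| + 1 := by positivity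
  have hV : ∀ᶠ p : ℕ in atTop, AA p k ⌊Real.exp ((|C| + 1) * p)⌋₊ / Real.log p ^ (k + 1) < K1 :=
    (AA_tendsto k (|C| + 1) hC1).eventually_lt_const (by rw [hK1]; linarith)
  have hZ : ∀ᶠ p : ℕ in atTop, ZZ p ≤ Real.exp (c / 8 * p) := ZZ_le_exp (by positivity)
  have hcast := tendsto_natCast_atTop_atTop (R := ℝ)
  have hdecay : ∀ (k : ℕ) (b e : ℝ), 0 < b → 0 < e → ∀ᶠ p : ℕ in atTop, (p : ℝ) ^ k * Real.exp (-(b * p)) < e := by
    intro k b e hb he
    have h1 := (Real.tendsto_pow_mul_exp_neg_atTop_nhds_zero k).comp (hcast.const_mul_atTop hb)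
    have h2 := h1.const_mul ((b ^ k)⁻¹)
    rw [mul_zero] at h2
    filter_upwards [h2.eventually_lt_const he] with p hp
    refine lt_of_le_of_lt (le_of_eq ?_) hp
    simp only [Function.comp]
    rw [mul_pow]
    field_simp
  filter_upwards [hV, hZ, hdecay 1 (c / (8 * (k + 1))) (c' / 4) (by positivity) (by positivity),
    hdecay 1 (c / 8) 1 (by positivity) one_pos,
    hdecay 2 (c / 4) (c' / 2) (by positivity) (by positivity),
    hdecay 1 c (c' / 2) hc (by positivity),
    hdecay 0 (c / 4) (1 / 2) (by positivity) (by norm_num),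
    eventually_ge_atTop 3] with p hpV hpZ hd1 hd2 hd3 hd4 hd5 hp3 y hy hyC h hh hh1
  have hp3' : (3 : ℝ) ≤ p := by exact_mod_cast hp3
  have hp0 : (0 : ℝ) < p := by linarith
  have hlog : 1 ≤ Real.log p := by
    rw [Real.le_log_iff_exp_le hp0]
    have := Real.exp_one_lt_d9
    linarith
  have hlogk : Real.log p ≤ Real.log p ^ (k + 1) := by
    rw [pow_succ']
    exact le_mul_of_one_le_right (by linarith) (one_le_pow₀ hlog)
  have hh0 : 0 < h := lt_of_lt_of_le (by positivity) hh
  have hy0 : 0 < y := lt_of_lt_of_le (by positivity) hy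
  set X := Real.exp y with hX
  have hX0 : 0 < X := Real.exp_pos _
  have hX1 : 1 ≤ X := Real.one_le_exp hy0.le
  set A := ⌊X⌋₊ with hA
  set B := ⌊Real.exp (y + h)⌋₊ with hB
  have hYe : Real.exp (y + h) = X * Real.exp h := by rw [Real.exp_add]
  have hA1 : 1 ≤ A := Nat.floor_pos.2 hX1
  have hAle : (A : ℝ) ≤ X := Nat.floor_le hX0.le
  have hAgt : X < A + 1 := Nat.lt_floor_add_one X
  have hA1' : (1 : ℝ) ≤ A := by exact_mod_cast hA1
  have hAhalf : X / 2 ≤ A := by linarith
  have hBle : (B : ℝ) ≤ X * Real.exp h := by rw [← hYe]; exact Nat.floor_le (Real.exp_pos _).le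
  have hBgt : X * Real.exp h < B + 1 := by rw [← hYe]; exact Nat.lt_floor_add_one _
  have hAB : A ≤ B := Nat.floor_mono (Real.exp_le_exp.2 (by linarith))
  have heh1 : 1 + h ≤ Real.exp h := by have := Real.add_one_le_exp h; linarith
  have heh2 : Real.exp h ≤ 1 + 2 * h := by
    have h1 := Real.abs_exp_sub_one_sub_id_le (x := h) (by rw [abs_of_pos hh0]; exact hh1)
    have h2 := (abs_le.1 h1).2
    nlinarith
  -- largeness of X
  have hXp : Real.exp (c * p) ≤ X := Real.exp_le_exp.2 hy
  have hhX : 2 ≤ h * X := by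
    have h1 : c' / p * Real.exp (c * p) ≤ h * X := mul_le_mul hh hXp (Real.exp_pos _).le hh0.le
    have h2 : 2 ≤ c' / p * Real.exp (c * p) := by
      rw [pow_one, Real.exp_neg] at hd4
      have h3 : (p : ℝ) < c' / 2 * Real.exp (c * p) := by
        rw [← div_eq_mul_inv, div_lt_iff₀ (Real.exp_pos _)] at hd4
        exact hd4
      rw [div_mul_eq_mul_div, le_div_iff₀ hp0]
      linarith
    linarith
  set D := B - (A - 1) with hD
  have hDcast : (D : ℝ) = B - A + 1 := by
    have : D = B - A + 1 := by omega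
    rw [this]
    push_cast [Nat.cast_sub hAB]
    ring
  have hDup : (D : ℝ) ≤ 3 * (h * X) := by
    rw [hDcast]
    have : X * Real.exp h ≤ X * (1 + 2 * h) := mul_le_mul_of_nonneg_left heh2 hX0.le
    linarith
  have hDlow : h * X ≤ D := by
    rw [hDcast]
    have : X * (1 + h) ≤ X * Real.exp h := mul_le_mul_of_nonneg_left heh1 hX0.le
    linarith
  have hDpos : (0 : ℝ) < D := by linarith
  set Z := Real.exp (y / (4 * (k + 1))) with hZdef
  have hZ1 : 1 ≤ Z := Real.one_le_exp (by positivity)
  have hZ0 : 0 < Z := by linarith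
  set rX := Real.exp (y / 2) with hrX
  have hrX0 : 0 < rX := Real.exp_pos _
  have hrXX : rX * rX = X := by rw [hrX, hX, ← Real.exp_add]; congr 1; ring
  -- step 1
  have hstep1 : ∫ t in Set.Ioc y (y + h), fk (k + 1) p t ≤ 1 / (A : ℝ) *
      ∑ m ∈ (Finset.Ioc (A - 1) B).filter (fun m => om p m = k + 1), (1 : ℝ) := by
    refine (window_upper (fun m => om p m = k + 1) hy0.le).trans ?_
    have hIcc : Finset.Icc A B = Finset.Ioc (A - 1) B := by
      ext x; simp only [Finset.mem_Icc, Finset.mem_Ioc]; omega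
    rw [← hX, ← hA, ← hB, hIcc, Finset.mul_sum]
    refine Finset.sum_le_sum fun m hm => ?_
    rw [Finset.mem_filter, Finset.mem_Ioc] at hm
    rw [mul_one]
    refine one_div_le_one_div_of_le (by linarith) ?_
    have : A ≤ m := by omega
    exact_mod_cast this
  have hstep2 : ∑ m ∈ (Finset.Ioc (A - 1) B).filter (fun m => om p m = k + 1), (1 : ℝ) ≤
      ∑ m ∈ (Finset.Ioc (A - 1) B).filter (fun m => om p m = k + 1),
        ((1 : ℝ) * ∑ q ∈ rs p m, (if Z ≤ (q : ℝ) then (1 : ℝ) else 0)) +
      (((Finset.Ioc (A - 1) B).filter (fun m => rX < (sp p m : ℝ))).card : ℝ) := by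
    rw [← Finset.sum_boole, Finset.sum_filter, Finset.sum_filter, ← Finset.sum_add_distrib]
    refine Finset.sum_le_sum fun m hm => ?_
    rw [Finset.mem_Ioc] at hm
    have hm0 : m ≠ 0 := by omega
    by_cases hom : om p m = k + 1
    · rw [if_pos hom, if_pos hom, one_mul]
      by_cases hsp : rX < (sp p m : ℝ)
      · rw [if_pos hsp]
        have : 0 ≤ ∑ q ∈ rs p m, (if Z ≤ (q : ℝ) then (1 : ℝ) else 0) :=
          Finset.sum_nonneg fun q _ => by split_ifs <;> norm_num
        linarith
      · rw [if_neg hsp, add_zero]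
        have hsp0 : (0 : ℝ) < sp p m := by exact_mod_cast SM_pos (sp_mem p m)
        have hrp0 : (0 : ℝ) < roughPart p m := by exact_mod_cast roughPart_pos p m
        have e : (sp p m : ℝ) * roughPart p m = m := by exact_mod_cast sp_mul hm0
        have hAm : (A : ℝ) ≤ m := by
          have : A ≤ m := by omega
          exact_mod_cast this
        have h1 : X / 2 ≤ rX * roughPart p m := by
          calc X / 2 ≤ m := hAhalf.trans hAm
            _ = (sp p m : ℝ) * roughPart p m := e.symm
            _ ≤ rX * roughPart p m := mul_le_mul_of_nonneg_right (not_lt.1 hsp) hrp0.le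
        have h2 : rX / 2 ≤ roughPart p m := by
          rw [← hrXX] at h1
          have h3 : rX * (rX / 2) ≤ rX * roughPart p m := by linarith
          exact le_of_mul_le_mul_left h3 hrX0
        have h3 : Z ^ (k + 1) = Real.exp (y / 4) := by
          rw [hZdef, ← Real.exp_nat_mul]
          congr 1
          push_cast
          field_simp
        have h4 : Real.exp (y / 4) ≤ rX / 2 := by
          have h5 : rX = Real.exp (y / 4) * Real.exp (y / 4) := by
            rw [hrX, ← Real.exp_add]; congr 1; ring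
          have h6 : 2 ≤ Real.exp (y / 4) := by
            rw [pow_zero, one_mul, Real.exp_neg] at hd5
            have h7 : 2 < Real.exp (c / 4 * p) := by
              rw [inv_lt_comm₀ (Real.exp_pos _) (by norm_num)] at hd5
              norm_num at hd5
              exact hd5
            refine h7.le.trans (Real.exp_le_exp.2 (by linarith))
          rw [h5]
          nlinarith [Real.exp_pos (y / 4)]
        obtain ⟨q, hq, hqZ⟩ := exists_large hZ1 hom (by rw [h3]; exact h4.trans h2)
        have h5 := Finset.single_le_sum (f := fun q : ℕ => if Z ≤ (q : ℝ) then (1 : ℝ) else 0)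
          (s := rs p m) (fun i _ => by split_ifs <;> norm_num) hq
        rw [if_pos hqZ] at h5
        exact h5
    · rw [if_neg hom, if_neg hom, zero_add]
      split_ifs <;> norm_num
  have hAB' : A - 1 ≤ B := by omega
  have hstep3 : ∑ m ∈ (Finset.Ioc (A - 1) B).filter (fun m => om p m = k + 1),
        ((1 : ℝ) * ∑ q ∈ rs p m, (if Z ≤ (q : ℝ) then (1 : ℝ) else 0)) ≤
      16 * (k + 1) * C0 * D / y * AA p k B := by
    rw [pairs p k (A - 1) B (fun _ => (1 : ℝ)) (fun q => if Z ≤ (q : ℝ) then (1 : ℝ) else 0)]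
    unfold AA
    rw [Finset.mul_sum]
    refine Finset.sum_le_sum fun n hn => ?_
    rw [Finset.mem_filter, Finset.mem_Icc] at hn
    have hs0 : (0 : ℝ) < n := by exact_mod_cast hn.1.1
    have hsn : 0 < n := hn.1.1
    rcases lt_or_ge (B : ℝ) (n * Z) with hlt | hge
    · -- no large prime factor
      have h0 : ∑ q ∈ (Finset.Ioc ((A - 1) / n) (B / n)).filter (fun q => q.Prime ∧ p < q),
          (1 : ℝ) * (if Z ≤ (q : ℝ) then (1 : ℝ) else 0) = 0 := by
        refine Finset.sum_eq_zero fun q hq => ?_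
        rw [Finset.mem_filter, Finset.mem_Ioc, Nat.le_div_iff_mul_le hsn] at hq
        rw [if_neg, mul_zero]
        intro hcon
        have h1 : (q : ℝ) * n ≤ B := by exact_mod_cast hq.1.2
        have h2 : Z * n ≤ q * n := mul_le_mul_of_nonneg_right hcon hs0.le
        linarith
      rw [h0]
      positivity
    · obtain ⟨hc1, hc2⟩ := count_inner hBT p (A - 1) B n hsn hAB'
      rw [← hD] at hc2
      have hle : ∑ q ∈ (Finset.Ioc ((A - 1) / n) (B / n)).filter (fun q => q.Prime ∧ p < q),
          (1 : ℝ) * (if Z ≤ (q : ℝ) then (1 : ℝ) else 0) ≤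
          (((Finset.Ioc ((A - 1) / n) (B / n)).filter (fun q => q.Prime ∧ p < q)).card : ℝ) := by
        rw [← nsmul_one, ← Finset.sum_const]
        refine Finset.sum_le_sum fun q _ => ?_
        split_ifs <;> norm_num
      refine hle.trans ?_
      -- D / n is large
      have hDs : Real.exp (y / (8 * (k + 1))) ≤ (D : ℝ) / n := by
        rw [le_div_iff₀ hs0]
        have hZZ : Z = Real.exp (y / (8 * (k + 1))) * Real.exp (y / (8 * (k + 1))) := by
          rw [hZdef, ← Real.exp_add]
          congr 1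
          field_simp
          ring
        set w := Real.exp (y / (8 * (k + 1))) with hw
        have hw0 : 0 < w := Real.exp_pos _
        -- n ≤ B / Z
        have h1 : w * (n * Z) ≤ w * B := mul_le_mul_of_nonneg_left hge hw0.le
        have h2 : (B : ℝ) ≤ 4 * X := by
          have : X * Real.exp h ≤ X * 4 := by
            refine mul_le_mul_of_nonneg_left ?_ hX0.le
            linarith
          linarith
        have h4 : 4 ≤ h * w := by
          have h5 : c' / p * Real.exp (c * p / (8 * (k + 1))) ≤ h * w := by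
            refine mul_le_mul hh (Real.exp_le_exp.2 ?_) (Real.exp_pos _).le hh0.le
            gcongr
          have h6 : 4 ≤ c' / p * Real.exp (c * p / (8 * (k + 1))) := by
            rw [pow_one, Real.exp_neg] at hd1
            rw [← div_eq_mul_inv, div_lt_iff₀ (Real.exp_pos _)] at hd1
            rw [div_mul_eq_mul_div, le_div_iff₀ hp0]
            have : c / (8 * ((k : ℝ) + 1)) * (p : ℝ) = c * p / (8 * (k + 1)) := by ring
            rw [this] at hd1
            linarith
          linarith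
        -- w * n * Z ≤ w * 4 X ≤ w * (h w) X = h X Z
        have h7 : w * n * Z ≤ h * X * Z := by
          calc w * n * Z = w * (n * Z) := by ring
            _ ≤ w * B := h1
            _ ≤ w * (4 * X) := mul_le_mul_of_nonneg_left h2 hw0.le
            _ ≤ w * (h * w * X) := by
                refine mul_le_mul_of_nonneg_left ?_ hw0.le
                exact mul_le_mul_of_nonneg_right h4 hX0.le
            _ = h * X * Z := by rw [hZZ]; ring
        have h8 : w * n ≤ h * X := le_of_mul_le_mul_right h7 hZ0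
        linarith
      have hDs1 : 1 ≤ (D : ℝ) / n := le_trans (Real.one_le_exp (by positivity)) hDs
      have hN1 : 1 ≤ D / n := by
        rw [Nat.one_le_div_iff hsn]
        rw [le_div_iff₀ hs0, one_mul] at hDs1
        exact_mod_cast hDs1
      have hb := hc2 (by omega)
      have hNge : (D : ℝ) / n ≤ ((D / n + 1 : ℕ) : ℝ) := by
        rw [div_le_iff₀ hs0]
        have : D ≤ (D / n + 1) * n :=
          ((Nat.div_lt_iff_lt_mul hsn).1 (Nat.lt_succ_self _)).le
        exact_mod_cast this
      have hNle : ((D / n + 1 : ℕ) : ℝ) ≤ 2 * ((D : ℝ) / n) := by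
        push_cast
        have := @Nat.cast_div_le ℝ _ _ _ D n
        linarith
      have hlN : y / (8 * (k + 1)) ≤ Real.log ((D / n + 1 : ℕ) : ℝ) := by
        rw [Real.le_log_iff_exp_le (by positivity)]
        linarith
      refine hb.trans ?_
      calc C0 * ((D / n + 1 : ℕ) : ℝ) / Real.log ((D / n + 1 : ℕ) : ℝ) ≤
          C0 * (2 * ((D : ℝ) / n)) / (y / (8 * (k + 1))) := by
            refine div_le_div₀ (by positivity) ?_ (by positivity) hlN
            exact mul_le_mul_of_nonneg_left hNle (by linarith)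
        _ = 16 * (k + 1) * C0 * D / y * (n : ℝ)⁻¹ := by field_simp; ring
  have hstep4 := card_big_smooth p (A - 1) B hAB' (by omega) hrX0
  rw [← hD] at hstep4
  -- final assembly
  have hZ0' := ZZ_nonneg p
  have hrX2 : rX ^ (-(1 / 2) : ℝ) = Real.exp (-(y / 4)) := by
    rw [hrX, ← Real.exp_mul]; congr 1; ring
  have hBrt : (B : ℝ) ^ (1 / 2 : ℝ) ≤ 2 * rX := by
    have h1 : (B : ℝ) ≤ (2 * rX) ^ 2 := by
      have : X * Real.exp h ≤ X * 4 := by
        refine mul_le_mul_of_nonneg_left ?_ hX0.le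
        linarith
      nlinarith
    calc (B : ℝ) ^ (1 / 2 : ℝ) ≤ ((2 * rX) ^ 2) ^ (1 / 2 : ℝ) :=
          Real.rpow_le_rpow (by positivity) h1 (by norm_num)
      _ = 2 * rX := by
          rw [← Real.rpow_natCast, ← Real.rpow_mul (by positivity)]
          norm_num
  have hVle : AA p k B ≤ K1 * Real.log p ^ (k + 1) := by
    rw [div_lt_iff₀ (by positivity)] at hpV
    refine (AA_mono p k (Nat.floor_mono (Real.exp_le_exp.2 ?_))).trans hpV.le
    have h1 := le_abs_self C
    nlinarith
  have hAinv : 1 / (A : ℝ) ≤ 2 / X := by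
    rw [div_le_div_iff₀ (by linarith) hX0]
    linarith
  have hexp1 : Real.exp (-(y / 4)) * ZZ p ≤ Real.log p ^ (k + 1) / p := by
    have h1 : Real.exp (-(y / 4)) * ZZ p ≤ Real.exp (-(c / 8 * p)) := by
      calc Real.exp (-(y / 4)) * ZZ p ≤ Real.exp (-(y / 4)) * Real.exp (c / 8 * p) :=
            mul_le_mul_of_nonneg_left hpZ (Real.exp_pos _).le
        _ = Real.exp (-(y / 4) + c / 8 * p) := by rw [Real.exp_add]
        _ ≤ _ := Real.exp_le_exp.2 (by linarith)
    rw [pow_one] at hd2
    rw [le_div_iff₀ hp0]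
    calc Real.exp (-(y / 4)) * ZZ p * p ≤ Real.exp (-(c / 8 * p)) * p :=
          mul_le_mul_of_nonneg_right h1 hp0.le
      _ ≤ 1 := by rw [mul_comm]; exact hd2.le
      _ ≤ Real.log p := hlog
      _ ≤ _ := hlogk
  have hexp2 : rX * ZZ p / X ≤ h * (Real.log p ^ (k + 1) / p) / 2 := by
    have h0 : rX * ZZ p / X = Real.exp (-(y / 2)) * ZZ p := by
      rw [← hrXX, Real.exp_neg, ← hrX]
      field_simp
    rw [h0]
    have h1 : Real.exp (-(y / 2)) * ZZ p ≤ Real.exp (-(c / 4 * p)) := by
      calc Real.exp (-(y / 2)) * ZZ p ≤ Real.exp (-(y / 2)) * Real.exp (c / 8 * p) :=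
            mul_le_mul_of_nonneg_left hpZ (Real.exp_pos _).le
        _ = Real.exp (-(y / 2) + c / 8 * p) := by rw [Real.exp_add]
        _ ≤ _ := Real.exp_le_exp.2 (by nlinarith)
    have h2 : Real.exp (-(c / 4 * p)) ≤ c' / p * (1 / p) / 2 := by
      have h3 : c' / p * (1 / p) / 2 = (c' / 2) / (p : ℝ) ^ 2 := by field_simp
      rw [h3, le_div_iff₀ (by positivity), mul_comm]
      exact hd3.le
    have h4 : c' / p * (1 / p) / 2 ≤ h * (Real.log p ^ (k + 1) / p) / 2 := by
      have : c' / p * (1 / p) ≤ h * (Real.log p ^ (k + 1) / p) := by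
        refine mul_le_mul hh ?_ (by positivity) hh0.le
        exact div_le_div_of_nonneg_right (hlog.trans hlogk) hp0.le
      linarith
    linarith
  have hAA0 := AA_nonneg p k B
  calc ∫ t in Set.Ioc y (y + h), fk (k + 1) p t ≤ 1 / (A : ℝ) * (16 * (k + 1) * C0 * D / y * AA p k B +
        (D * (rX ^ (-(1 / 2) : ℝ) * ZZ p) + (B : ℝ) ^ (1 / 2 : ℝ) * ZZ p)) := by
        refine hstep1.trans ?_
        exact mul_le_mul_of_nonneg_left (hstep2.trans (add_le_add hstep3 hstep4)) (by positivity)
    _ ≤ 2 / X * (16 * (k + 1) * C0 * (3 * (h * X)) / (c * p) * (K1 * Real.log p ^ (k + 1)) +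
        (3 * (h * X) * (Real.log p ^ (k + 1) / p) + 2 * rX * ZZ p)) := by
        refine mul_le_mul hAinv ?_ (by positivity) (by positivity)
        refine add_le_add ?_ (add_le_add ?_ ?_)
        · refine mul_le_mul ?_ hVle hAA0 (by positivity)
          refine div_le_div₀ (by positivity) ?_ (by positivity) hy
          exact mul_le_mul_of_nonneg_left hDup (by positivity)
        · rw [hrX2]
          exact mul_le_mul hDup hexp1 (by positivity) (by positivity)
        · exact mul_le_mul_of_nonneg_right hBrt hZ0'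
    _ = (96 * (k + 1) * C0 * K1 / c + 6) * h * (Real.log p ^ (k + 1) / p) + 4 * (rX * ZZ p / X) := by
        field_simp
        ring
    _ ≤ (96 * (k + 1) * C0 * K1 / c + 6) * h * (Real.log p ^ (k + 1) / p) +
          4 * (h * (Real.log p ^ (k + 1) / p) / 2) := by
        linarith
    _ ≤ (96 * (k + 1) * C0 * K1 / c + 10) * h * (Real.log p ^ (k + 1) / p) := by
        have : 0 ≤ h * (Real.log p ^ (k + 1) / p) := by positivity
        nlinarith

end Pool.Agent.U916.KF
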