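import Mathlib
import Pool.Agent.U916.KF.Gen4
import Pool.Agent.U916.KF.Short
import Pool.Agent.H447R2.ML.Pert

set_option autoImplicit false

/-!
# Exponentially small perturbations

The almost everywhere law holds for the `p`-rough parts of `⌊β α ^ p + g p⌋` for every sequence `g`
with `|g p| ≤ C e ^ (κ p)`, at almost every point with `log α > κ`.
-/

namespace Pool.Agent.U916.KF

open Filter Topology MeasureTheory
open Pool.Agent.H305R2 (roughPart NN)
open Pool.Agent.H447R2.ML (cov weight shift)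

/-- test function of the perturbed sequence -/
noncomputable def fl (k : ℕ) (g : ℕ → ℝ) (p : ℕ) (t : ℝ) : ℝ :=
  if om p ⌊Real.exp t + g p⌋₊ = k + 1 then 1 else 0

variable (k : ℕ)

lemma fk_nonneg (p : ℕ) (t : ℝ) : 0 ≤ fk k p t := ind_nonneg _ t

lemma fk_le_one (p : ℕ) (t : ℝ) : fk k p t ≤ 1 := ind_le_one _ t

lemma measurable_fk (p : ℕ) : Measurable (fk k p) := measurable_ind _

lemma integrableOn_fk (p : ℕ) (a b : ℝ) : IntegrableOn (fk k p) (Set.Ioc a b) :=
  integrableOn_ind _ a b

lemma fl_nonneg (g : ℕ → ℝ) (p : ℕ) (t : ℝ) : 0 ≤ fl k g p t := by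
  unfold fl; split_ifs <;> norm_num

lemma fl_le_one (g : ℕ → ℝ) (p : ℕ) (t : ℝ) : fl k g p t ≤ 1 := by
  unfold fl; split_ifs <;> norm_num

lemma measurable_fl (g : ℕ → ℝ) (p : ℕ) : Measurable (fl k g p) := by
  have h1 : Measurable fun t : ℝ => ⌊Real.exp t + g p⌋₊ :=
    Nat.measurable_floor.comp (Real.measurable_exp.add_const _)
  have h2 : Measurable fun m : ℕ => if om p m = k + 1 then (1 : ℝ) else 0 :=
    measurable_from_top
  exact h2.comp h1

lemma integrableOn_fl (g : ℕ → ℝ) (p : ℕ) (a b : ℝ) : IntegrableOn (fl k g p) (Set.Ioc a b) := by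
  refine Measure.integrableOn_of_bounded (M := 1) (by simp) (measurable_fl k g p).aestronglyMeasurable ?_
  exact Eventually.of_forall fun t => by
    rw [Real.norm_eq_abs, abs_of_nonneg (fl_nonneg k g p t)]; exact fl_le_one k g p t

lemma fl_ae (g : ℕ → ℝ) (p : ℕ) : ∀ᵐ t : ℝ, 0 < Real.exp t + g p →
    fl k g p t = fk (k + 1) p (Real.log (Real.exp t + g p)) := by
  have h0 : volume {t : ℝ | ∃ m : ℕ, Real.exp t + g p = m} = 0 := by
    refine Set.Countable.measure_zero ?_ volume
    refine (Set.countable_range fun m : ℕ => Real.log ((m : ℝ) - g p)).mono ?_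
    rintro t ⟨m, hm⟩
    refine ⟨m, ?_⟩
    simp only
    rw [← hm, add_sub_cancel_right, Real.log_exp]
  have h1 : ∀ᵐ t : ℝ, ¬ ∃ m : ℕ, Real.exp t + g p = m := by
    rw [ae_iff]
    simpa using h0
  filter_upwards [h1] with t ht hpos
  unfold fl fk ind NN
  rw [Real.exp_log hpos]
  have h2 : ⌈Real.exp t + g p⌉₊ = ⌊Real.exp t + g p⌋₊ + 1 := by
    rw [Nat.ceil_eq_iff (Nat.succ_ne_zero _)]
    constructor
    · rw [Nat.succ_sub_one]
      refine lt_of_le_of_ne (Nat.floor_le hpos.le) fun h => ht ⟨_, h.symm⟩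
    · push_cast
      exact (Nat.lt_floor_add_one _).le
  rw [h2, Nat.add_sub_cancel]

/-- comparison of the perturbed and unperturbed integrals -/
lemma compare {g : ℕ → ℝ} {p : ℕ} {y y' ε : ℝ} (hε1 : ε ≤ 1 / 4)
    (hg : |g p| ≤ ε * Real.exp y) (h : y ≤ y') :
    |(∫ u in Set.Ioc (Real.log (Real.exp y + g p)) (Real.log (Real.exp y' + g p)), fk (k + 1) p u) -
      ∫ t in Set.Ioc y y', fl k g p t| ≤ 2 * ε * ∫ t in Set.Ioc y y', fl k g p t := by
  have hy := Real.exp_pos y
  have hg1 : |g p| < Real.exp y := by nlinarith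
  have hpos : ∀ t, y ≤ t → 0 < Real.exp t + g p := by
    intro t ht
    have h1 := Real.exp_le_exp.2 ht
    have h2 := neg_abs_le (g p)
    linarith
  rw [cov hg1 h]
  have e1 : ∫ t in Set.Ioc y y', (Real.exp t / (Real.exp t + g p)) *
      fk (k + 1) p (Real.log (Real.exp t + g p)) =
      ∫ t in Set.Ioc y y', (Real.exp t / (Real.exp t + g p)) * fl k g p t := by
    refine setIntegral_congr_ae measurableSet_Ioc ?_
    filter_upwards [fl_ae k g p] with t ht htI
    rw [ht (hpos t htI.1.le)]
  rw [e1]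
  have hint := integrableOn_fl k g p y y'
  have hw : IntegrableOn (fun t => (Real.exp t / (Real.exp t + g p)) * fl k g p t) (Set.Ioc y y') := by
    refine Measure.integrableOn_of_bounded (M := 2) (by simp) ?_ ?_
    · refine (Measurable.mul ?_ (measurable_fl k g p)).aestronglyMeasurable
      exact Real.measurable_exp.div (Real.measurable_exp.add_const _)
    · refine ae_restrict_of_forall_mem measurableSet_Ioc fun t ht => ?_
      have h1 := weight hε1 hg ht.1.le
      have h2 := abs_le.1 h1
      have h3 := fl_nonneg k g p t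
      have h4 := fl_le_one k g p t
      have h5 : 0 < Real.exp t / (Real.exp t + g p) := div_pos (Real.exp_pos _) (hpos t ht.1.le)
      rw [Real.norm_eq_abs, abs_of_nonneg (mul_nonneg h5.le h3)]
      nlinarith
  rw [← integral_sub hw hint, ← integral_const_mul, ← Real.norm_eq_abs]
  refine norm_integral_le_of_norm_le (μ := volume.restrict (Set.Ioc y y'))
    (f := fun t => (Real.exp t / (Real.exp t + g p)) * fl k g p t - fl k g p t)
    (hint.const_mul (2 * ε)) ?_
  refine ae_restrict_of_forall_mem measurableSet_Ioc fun t ht => ?_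
  have h1 := weight hε1 hg ht.1.le
  have h3 := fl_nonneg k g p t
  have e2 : (Real.exp t / (Real.exp t + g p)) * fl k g p t - fl k g p t =
      (Real.exp t / (Real.exp t + g p) - 1) * fl k g p t := by ring
  rw [e2, Real.norm_eq_abs, abs_mul, abs_of_nonneg h3]
  exact mul_le_mul_of_nonneg_right h1 h3

end Pool.Agent.U916.KF
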