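import Mathlib
import Pool.Agent.U916.KF.Pert2
import Pool.Agent.H447R2.ML.Law

set_option autoImplicit false

/-!
# The law of the numbers of exponents with exactly `k` prime factors
-/

namespace Pool.Agent.U916.KF

open Filter Topology MeasureTheory
open Pool.Agent.H305R2 (roughPart)

/-- number of primes `p ≤ n` for which `⌊β α ^ p + g p⌋` has exactly `k` prime factors larger
than `p`, counted with multiplicity -/
noncomputable def cnt (k : ℕ) (g : ℕ → ℝ) (α β : ℝ) (n : ℕ) : ℕ :=
  ((Finset.range (n + 1)).filter (fun p => p.Prime ∧ om p ⌊β * α ^ p + g p⌋₊ = k)).card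

lemma cnt_eq_CC (k : ℕ) (g : ℕ → ℝ) {α β : ℝ} (hα : 0 < α) (hβ : 0 < β) (n : ℕ) :
    (cnt (k + 1) g α β n : ℝ) = CC (fl k g) (Real.log α) (Real.log β) n := by
  unfold cnt CC
  have e : ∀ p : ℕ, fl k g p (Real.log α * p + Real.log β) =
      if om p ⌊β * α ^ p + g p⌋₊ = k + 1 then 1 else 0 := by
    intro p
    unfold fl
    have : Real.exp (Real.log α * p + Real.log β) = β * α ^ p := by
      rw [Real.exp_add, Real.exp_log hβ, mul_comm (Real.log α), Real.exp_nat_mul, Real.exp_log hα,
        mul_comm]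
    rw [this]
  simp only [e]
  rw [← Finset.sum_filter, Finset.sum_const, nsmul_eq_mul, mul_one, Finset.filter_filter]
  congr 2
  ext p
  simp only [Finset.mem_filter, Finset.mem_range, Finset.mem_Icc]
  constructor
  · rintro ⟨h1, h2, h3⟩
    exact ⟨⟨h2.one_lt.le, by omega⟩, h2, h3⟩
  · rintro ⟨h1, h2, h3⟩
    exact ⟨by omega, h2, h3⟩

/-- **The almost everywhere law for `k + 1` prime factors, one `k`.** -/
theorem law_one (k : ℕ) {g : ℕ → ℝ} {κ C : ℝ} (hκ : 1 ≤ κ) (hg : ∀ p : ℕ, |g p| ≤ C * κ ^ p) :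
    ∀ᵐ z : ℝ × ℝ, κ < z.1 → 0 < z.2 →
      Tendsto (fun n : ℕ => (cnt (k + 1) g z.1 z.2 n : ℝ) / Real.log (n : ℝ) ^ (k + 1)) atTop
        (𝓝 (Real.exp Real.eulerMascheroniConstant / ((k + 1).factorial * Real.log z.1))) := by
  have hκ0 : 0 < κ := by linarith
  have hg' : ∀ p : ℕ, |g p| ≤ (|C| + 1) * Real.exp (Real.log κ * p) := by
    intro p
    have e : Real.exp (Real.log κ * p) = κ ^ p := by
      rw [mul_comm, Real.exp_nat_mul, Real.exp_log hκ0]
    rw [e]
    refine (hg p).trans ?_
    have := le_abs_self C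
    gcongr
    linarith
  have hgood := good_fl k (Real.log_nonneg hκ) (by positivity : (0 : ℝ) < |C| + 1) hg'
  have h := ae_law_log hgood
  have h2 := Pool.Agent.H447R2.ML.ae_exp (P := fun z => κ < z.1 →
    Tendsto (fun n : ℕ => (cnt (k + 1) g z.1 z.2 n : ℝ) /
    Real.log (n : ℝ) ^ (k + 1)) atTop
      (𝓝 (Real.exp Real.eulerMascheroniConstant / ((k + 1).factorial * Real.log z.1)))) (by
      filter_upwards [h] with z hz hz1
      rw [Real.log_exp]
      have h3 : Real.log κ < z.1 := by
        rw [Real.log_lt_iff_lt_exp hκ0]; exact hz1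
      have e : Real.exp Real.eulerMascheroniConstant / ((k + 1).factorial * z.1) =
          Real.exp Real.eulerMascheroniConstant / k.factorial / z.1 / (k + 1) := by
        rw [Nat.factorial_succ]
        push_cast
        field_simp
      rw [e]
      refine (hz h3).congr fun n => ?_
      rw [cnt_eq_CC k g (Real.exp_pos _) (Real.exp_pos _), Real.log_exp, Real.log_exp])
  filter_upwards [h2] with z hz hz1 hz2
  exact hz (hκ0.trans hz1) hz2 hz1

/-- **The almost everywhere law for all numbers of prime factors.** -/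
theorem law {g : ℕ → ℝ} {κ C : ℝ} (hκ : 1 ≤ κ) (hg : ∀ p : ℕ, |g p| ≤ C * κ ^ p) :
    ∀ᵐ z : ℝ × ℝ, κ < z.1 → 0 < z.2 → ∀ k : ℕ, 1 ≤ k →
      Tendsto (fun n : ℕ => (cnt k g z.1 z.2 n : ℝ) / Real.log (n : ℝ) ^ k) atTop
        (𝓝 (Real.exp Real.eulerMascheroniConstant / (k.factorial * Real.log z.1))) := by
  filter_upwards [ae_all_iff.mpr fun k => law_one k hκ hg] with z hz h1 h2 k hk
  obtain ⟨j, rfl⟩ := Nat.exists_eq_add_of_le' hk
  exact hz j h1 h2

/-- the number of prime factors larger than `p` is the number of prime factors of the rough part -/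
lemma om_eq_cardFactors (p m : ℕ) : om p m = ArithmeticFunction.cardFactors (roughPart p m) := by
  rw [ArithmeticFunction.cardFactors_apply, roughPart_eq]
  unfold om
  have h : (rl p m).Perm (rl p m).prod.primeFactorsList :=
    Nat.primeFactorsList_unique rfl fun q hq => (mem_rl.1 hq).1.1
  exact h.length_eq

end Pool.Agent.U916.KF
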