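import Mathlib
import Pool.Agent.U916.KF.Law
import Pool.Agent.H447R2.ML.Spec

set_option autoImplicit false

/-!
# Counting functions written with the number of prime factors of the rough part
-/

namespace Pool.Agent.U916.KF

open Filter Topology MeasureTheory
open ArithmeticFunction (cardFactors)

/-- the law, with the number of prime factors of the rough part -/
theorem law' {g : ℕ → ℝ} {κ C : ℝ} (hκ : 1 ≤ κ) (hg : ∀ p : ℕ, |g p| ≤ C * κ ^ p) :
    ∀ᵐ z : ℝ × ℝ, κ < z.1 → 0 < z.2 → ∀ k : ℕ, 1 ≤ k →
      Tendsto (fun n : ℕ => (((Finset.range (n + 1)).filter (fun p => p.Prime ∧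
        cardFactors (Pool.Agent.H305R2.roughPart p ⌊z.2 * z.1 ^ p + g p⌋₊) = k)).card : ℝ) /
          Real.log (n : ℝ) ^ k) atTop
        (𝓝 (Real.exp Real.eulerMascheroniConstant / (k.factorial * Real.log z.1))) := by
  filter_upwards [law hκ hg] with z hz h1 h2 k hk
  refine (hz h1 h2 k hk).congr fun n => ?_
  unfold cnt
  simp only [om_eq_cardFactors]

end Pool.Agent.U916.KF
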